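import Pool.Agent.D0H67.TS.Germ
import Pool.Agent.D0H67.CX.Smooth

/-! # Generic determinantal ideals belong to the class: statements of the modules

Strong induction on `k`, for all finite `m`, `n`: the ideal `I_k` of the `k`-minors of the generic `m × n`
matrix is homogeneous of degree `k`; where the `r`-minor `Δ = det X(a, b)` is not zero, it is the
pull-back of the ideal of the `(k - r)`-minors of a generic matrix by the bordered minors
`f_ij = Δ X_ij - X(i, b) adj(X(a, b)) X(a, j)`, `i ∉ a`, `j ∉ b`. -/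

set_option autoImplicit false
set_option linter.unusedSectionVars false
set_option linter.unusedVariables false

namespace Pool.Agent.D0H67.TS

open MvPolynomial Pool.Agent.W428.MOT Pool.Agent.TH192.MT Pool.Agent.TH192.DT
  Pool.Agent.D0H67.SUB Pool.Agent.D0H67.PM Pool.Agent.D0H67.CX Pool.Agent.D0H67.CX.Qh

/-- The minors of size `k` of the generic matrix with the rows `m` and the columns `n`. -/
noncomputable def minG (m n : Type) (k : ℕ) (q : (Fin k → m) × (Fin k → n)) :
    MvPolynomial (m × n) ℂ :=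
  (Matrix.of fun i j => X (q.1 i, q.2 j) : Matrix (Fin k) (Fin k) (MvPolynomial (m × n) ℂ)).det

/-- The bordered minors `Δ X_ij - X(i, b) adj(X(a, b)) X(a, j)`, `i ∉ a`, `j ∉ b`. -/
noncomputable def brd (m n : Type) {r : ℕ} (a : Fin r → m) (b : Fin r → n)
    (q : {i : m // i ∉ Set.range a} × {j : n // j ∉ Set.range b}) : MvPolynomial (m × n) ℂ :=
  minG m n r (a, b) * X (q.1.1, q.2.1) - ∑ s, ∑ t, X (q.1.1, b s) *
    (Matrix.of fun i j => X (a i, b j) :
      Matrix (Fin r) (Fin r) (MvPolynomial (m × n) ℂ)).adjugate s t * X (a t, q.2.1)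

/-- (SYLA) `Δ X = F + U V` with `F = Δ X - X(·, b) adj(A) X(a, ·)`, which is zero in the rows `a` and in the
columns `b`, and `U V` of rank `≤ r`. Expand a `k`-minor of `F + U V` by the rows (multilinear,
alternating): at most `r` rows are rows of `V`, the others are rows of `F`; a determinant with at
least `k - r` rows of `F` lies in the ideal of the `(k - r)`-minors of `F` (expand along the other rows). -/
def S_SYLA : Prop :=
  ∀ {m n : Type} [Fintype m] [Fintype n] {r k : ℕ} (a : Fin r → m) (b : Fin r → n), r ≤ k →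
    ∀ q, minG m n r (a, b) ^ k * minG m n k q ∈ Ideal.span (Set.range fun l =>
      bind₁ (brd m n a b)
        (minG {i : m // i ∉ Set.range a} {j : n // j ∉ Set.range b} (k - r) l))

/-- (SYLB) with `M = ((A, B), (C, D))` the submatrix with the rows `a, I` and the columns `b, J`:
`M ((adj A, - adj(A) B), (0, Δ)) = ((Δ, 0), (C adj A, Δ D - C adj(A) B))`, so
`det M Δ ^ (r - 1) Δ ^ (k - r) = Δ ^ r det f(I, J)` (`r ≥ 1`; `r = 0` is clear: `Δ = 1`). -/
def S_SYLB : Prop :=
  ∀ {m n : Type} [Fintype m] [Fintype n] {r k : ℕ} (a : Fin r → m) (b : Fin r → n), r ≤ k →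
    ∀ l, minG m n r (a, b) ^ k * bind₁ (brd m n a b)
      (minG {i : m // i ∉ Set.range a} {j : n // j ∉ Set.range b} (k - r) l) ∈
        Ideal.span (Set.range (minG m n k))

/-- (CEN) the derivative of `f_ij` by `X_i'j'`, `i' ∉ a`, `j' ∉ b`, is `Δ` if `(i', j') = (i, j)` and `0`
otherwise (`X_i'j'` does not occur in `Δ`, `X(i, b)`, `X(a, b)`, `X(a, j)`) -/
def S_CEN : Prop :=
  ∀ {m n : Type} [Fintype m] [Fintype n] {r : ℕ} (a : Fin r → m) (b : Fin r → n) (u : m × n → ℂ),
    eval u (minG m n r (a, b)) ≠ 0 → (∀ q, eval u (brd m n a b q) = 0) → ∀ k : ℕ,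
    Qh.Center (brd m n a b) (minG m n r (a, b) ^ k) u

/-- (RANK) take the largest `r` with an `r`-minor `≠ 0` at `u`; `brd` is an `(r + 1)`-minor
(`det ((A, x), (y, z)) = z det A - y adj(A) x`, `Matrix.det_fromBlocks`-type identity) -/
def S_RANK : Prop :=
  ∀ {m n : Type} [Fintype m] [Fintype n] (k : ℕ) (u : m × n → ℂ), u ≠ 0 →
    (∀ q, eval u (minG m n k q) = 0) → ∃ r, 1 ≤ r ∧ r < k ∧ ∃ (a : Fin r → m) (b : Fin r → n),
    Function.Injective a ∧ Function.Injective b ∧ eval u (minG m n r (a, b)) ≠ 0 ∧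
    ∀ q, eval u (brd m n a b q) = 0

/-- (AIND) in the field of fractions: for a `(k + 1)`-submatrix `B`, the entries of `adj B` are `k`-minors
up to signs, `det (adj B) = det B ^ k`, and `B = det B (adj B)⁻¹`; so all the variables are algebraic over
the `k`-minors, and a transcendence basis can be chosen among the `k`-minors. -/
def S_AIND : Prop :=
  ∀ {m n : Type} [Fintype m] [Fintype n] (k : ℕ), 1 ≤ k → k < Fintype.card m →
    k < Fintype.card n → ∃ ι : m × n → (Fin k → m) × (Fin k → n),
    AlgebraicIndependent ℂ fun i => minG m n k (ι i)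

/-- (MAXP) `u` the partial identity of rank `k - 1`; SYLA, SYLB, CEN for `r = k - 1` show that the ideal is
`(f_ij)` near `u`: `SmoothAt … c 1`, `Smooth.mem_pair`. -/
def S_MAXP : Prop :=
  ∀ {m n : Type} [Fintype m] [Fintype n] (k : ℕ), 2 ≤ k → k ≤ Fintype.card m →
    k ≤ Fintype.card n → ∃ u : m × n → ℂ, u ≠ 0 ∧ (∀ q, eval u (minG m n k q) = 0) ∧
    LocPair (minG m n k) u
      (-(((Fintype.card m - (k - 1)) * (Fintype.card n - (k - 1)) : ℕ) : ℤ), 1)

/-- (BASE1) the `1`-minors are the variables: `GermS.pull` from `GermS.fold` for the coordinate functions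
(`Smooth.cU`, `Smooth.PU 1`, `Smooth.greedy_U`, `Smooth.exch_U`, `Smooth.span_eq`) -/
def S_BASE1 : Prop :=
  ∀ {m n : Type} [Fintype m] [Fintype n] [Nonempty m] [Nonempty n],
    ∃ D, GermS (minG m n 1) D

/-- (HOM) -/
def S_HOM : Prop :=
  ∀ {m n : Type} [Fintype m] [Fintype n] (k : ℕ) (q : (Fin k → m) × (Fin k → n)),
    IsWeightedHomogeneous (fun _ : m × n => 1) (minG m n k q) k

end Pool.Agent.D0H67.TS
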