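import Pool.Agent.D0H67.TS.DStm

/-! # Generic determinantal ideals belong to the class: the induction -/

set_option autoImplicit false
set_option linter.unusedSectionVars false
set_option linter.unusedVariables false

namespace Pool.Agent.D0H67.TS

open MvPolynomial Pool.Agent.W428.MOT Pool.Agent.TH192.MT Pool.Agent.TH192.DT
  Pool.Agent.D0H67.SUB Pool.Agent.D0H67.PM Pool.Agent.D0H67.CX Pool.Agent.D0H67.CX.Qh

theorem det_germ (hSYLA : S_SYLA) (hSYLB : S_SYLB) (hCEN : S_CEN) (hRANK : S_RANK)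
    (hAIND : S_AIND) (hMAXP : S_MAXP) (hBASE : S_BASE1) (hHOM : S_HOM) :
    ∀ (k : ℕ) {m n : Type} [Fintype m] [Fintype n], 1 ≤ k → k ≤ Fintype.card m →
      k ≤ Fintype.card n → ∃ D, GermS (minG m n k) D := by
  classical
  intro k
  induction k using Nat.strong_induction_on with
  | _ k ih =>
    intro m n _ _ hk hm hn
    have hmn : Nonempty m := Fintype.card_pos_iff.1 (lt_of_lt_of_le hk hm)
    have hnn : Nonempty n := Fintype.card_pos_iff.1 (lt_of_lt_of_le hk hn)
    by_cases hk1 : k = 1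
    · subst hk1
      exact hBASE
    have hk2 : 2 ≤ k := by omega
    -- the charts
    let Ω : Type := {x : Σ r : Fin k, (Fin r → m) × (Fin r → n) // 1 ≤ (x.1 : ℕ) ∧
      Function.Injective x.2.1 ∧ Function.Injective x.2.2}
    have hD : ∀ ω : Ω, ∃ D, GermS (minG {i : m // i ∉ Set.range ω.1.2.1}
        {j : n // j ∉ Set.range ω.1.2.2} (k - ω.1.1)) D := by
      intro ω
      have hr : (ω.1.1 : ℕ) < k := ω.1.1.2
      have h1 : ∀ {α : Type} [Fintype α] (a : Fin ω.1.1 → α), Function.Injective a →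
          Fintype.card {i : α // i ∉ Set.range a} = Fintype.card α - ω.1.1 := by
        intro α _ a ha
        rw [Fintype.card_subtype_compl (fun i => i ∈ Set.range a)]
        congr 1
        have h2 : Fintype.card {x // x ∈ Set.range a} = Fintype.card (Set.range a) := rfl
        rw [h2, Set.card_range_of_injective ha, Fintype.card_fin]
      refine ih (k - ω.1.1) (by have := ω.2.1; omega) (by omega) ?_ ?_
      · rw [h1 _ ω.2.2.1]
        omega
      · rw [h1 _ ω.2.2.2]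
        omega
    choose D hD using hD
    refine ⟨_, GermS.cone (minG m n k) (fun _ => 1) k (by omega) (fun q => hHOM k q) ?_
      (Ω := Ω) (fun ω => {i : m // i ∉ Set.range ω.1.2.1} × {j : n // j ∉ Set.range ω.1.2.2})
      (fun ω => (Fin (k - ω.1.1) → {i : m // i ∉ Set.range ω.1.2.1}) ×
        (Fin (k - ω.1.1) → {j : n // j ∉ Set.range ω.1.2.2}))
      (fun ω => minG {i : m // i ∉ Set.range ω.1.2.1} {j : n // j ∉ Set.range ω.1.2.2}
        (k - ω.1.1)) D
      (fun ω => brd m n ω.1.2.1 ω.1.2.2)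
      (fun ω => minG m n ω.1.1 (ω.1.2.1, ω.1.2.2) ^ k) hD ?_ ?_ ?_⟩
    · rintro u ⟨⟨hu0, -⟩, -⟩ k' hk'
      obtain ⟨i, hi⟩ := Function.ne_iff.1 hu0
      exact Nat.dvd_one.1 (hk' i hi)
    · intro ω
      exact ⟨hSYLA ω.1.2.1 ω.1.2.2 ω.1.1.2.le, hSYLB ω.1.2.1 ω.1.2.2 ω.1.1.2.le⟩
    · rintro u ⟨⟨hu0, -⟩, hug⟩
      obtain ⟨r, hr1, hrk, a, b, ha, hb, hab, hbr⟩ := hRANK k u hu0 hug
      exact Or.inl ⟨⟨⟨⟨r, hrk⟩, (a, b)⟩, hr1, ha, hb⟩, hCEN a b u hab hbr k⟩
    · by_cases hlt : k < Fintype.card m ∧ k < Fintype.card n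
      · left
        obtain ⟨i₀⟩ := hmn
        obtain ⟨j₀⟩ := hnn
        refine ⟨fun k' hk' => Nat.dvd_one.1 (hk' (i₀, j₀)), ?_⟩
        obtain ⟨ι, hι⟩ := hAIND k hk hlt.1 hlt.2
        refine ⟨ι, ?_⟩
        simpa using hι
      · right
        obtain ⟨u, hu0, hug, hp⟩ := hMAXP k hk2 hm hn
        refine ⟨u, ⟨⟨hu0, fun i hi => absurd hi one_ne_zero⟩, hug⟩, _, hp, ?_⟩
        rw [Finset.sum_const, Finset.card_univ, smul_eq_mul, mul_one, mul_one, Fintype.card_prod]
        have h3 : k = Fintype.card m ∨ k = Fintype.card n := by omega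
        rcases h3 with h3 | h3
        · exact_mod_cast (h3 ▸ Dvd.intro _ rfl : k ∣ Fintype.card m * Fintype.card n)
        · exact_mod_cast (h3 ▸ Dvd.intro_left _ rfl : k ∣ Fintype.card m * Fintype.card n)

end Pool.Agent.D0H67.TS
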