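import Pool.Agent.D0H67.TS.Stm

/-! # The class of germs which is closed under sums in disjoint sets of variables -/

set_option autoImplicit false
set_option linter.unusedSectionVars false
set_option linter.unusedVariables false

namespace Pool.Agent.D0H67.TS

open MvPolynomial Pool.Agent.W428.MOT Pool.Agent.TH192.MT Pool.Agent.TH192.DT
  Pool.Agent.D0H67.SUB Pool.Agent.D0H67.PM Pool.Agent.D0H67.CX Pool.Agent.D0H67.CX.Qh

/-- The least class of germs at the origin of ideals `(g j)`, with sets of pairs of integers, with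
the following properties. (fold) It contains the ideals of fold type. (sum), (ext), (pow) It contains
the sums `I + J` and the products `I J` (`I, J ≠ 0`) of its germs in disjoint sets of variables, and the
powers of its germs. (pull) It contains the pull-backs of its germs by polynomial maps `f`,
`f(0) = 0`, with surjective differential at `0`, and the ideals which are equal
to them near `0`. (cone) Let the variables have weights `w i ≥ 0`; let `x` be
the variables of positive weight and `s` the variables of weight `0` (parameters), and let the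
`g j` be weighted homogeneous of degree `d > 0` in `x`, with coefficients which depend polynomially on
`s`. Let `C` be the set of the points `(x, 0)`, `x ≠ 0`, at which all `g j` vanish, and suppose that the
greatest common divisor of the weights of the coordinates `≠ 0` of every point of `C` is `1`. Let
`n` be the number of the variables `x`, and suppose that the greatest common divisor of all the
weights is `1` and that `n` of the `g j` are algebraically independent over `ℂ(s)`; or let
`d ∣ (∑ w i) N` for the pair `(-c, N)` of a fold chart at a point of `C`. Suppose that there are finitely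
many maps `f ω` and germs `g' ω` of the class such that `(g j)` is the pull-back of `g' ω` where
`h ω ≠ 0`, and that every point of `C` is the center of one of these charts, or `(g j)` is of fold type at
this point. Then the germ of `(g j)` at the origin belongs to the class, with the pairs of the charts
and `(-∑ w i, d)`. -/
inductive GermS : {σ J : Type} → (J → MvPolynomial σ ℂ) → Set (ℤ × ℤ) → Prop
  | fold {σ S : Type} [Fintype σ] [Fintype S] {κ : S → Type} [∀ s, Finite (κ s)]
      (c : (s : S) → κ s → σ → ℂ) (P : Finset (S → ℕ)) (hP : P.Nonempty)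
      (hc : ∀ s, zeros (c s) ≠ ⊤) (hG : Greedy P hP)
      (hX : ∀ A : Finset S, Closed c A → 0 < fP P hP A → ExchOn P hP A) :
      GermS (gensP P c) (Qh.foldPairs c P hP)
  | sum {σ J τ J' : Type} [Finite σ] [Finite J] [Finite τ] [Finite J']
      (g : J → MvPolynomial σ ℂ) (g' : J' → MvPolynomial τ ℂ) (D D' : Set (ℤ × ℤ))
      (hg : GermS g D) (hg' : GermS g' D') : GermS (sumG g g') (addD D D')
  | pull {σ J τ J' : Type} [Finite σ] [Finite J] [Finite τ] [Finite J']
      (g : J → MvPolynomial σ ℂ) (g' : J' → MvPolynomial τ ℂ) (D : Set (ℤ × ℤ))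
      (f : τ → MvPolynomial σ ℂ) (h : MvPolynomial σ ℂ) (hg' : GermS g' D)
      (hf : Qh.Center f h 0) (he : Qh.EqOff h g fun l => bind₁ f (g' l)) : GermS g D
  | ext {σ J τ J' : Type} [Finite σ] [Finite J] [Finite τ] [Finite J']
      (g : J → MvPolynomial σ ℂ) (g' : J' → MvPolynomial τ ℂ) (D D' : Set (ℤ × ℤ))
      (hg : GermS g D) (hg' : GermS g' D') (h0 : ∃ j, g j ≠ 0) (h0' : ∃ l, g' l ≠ 0) :
      GermS (extG g g') (D ∪ D')
  | pow {σ J : Type} [Finite σ] [Finite J] (g : J → MvPolynomial σ ℂ) (D : Set (ℤ × ℤ)) (m : ℕ)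
      (hm : 0 < m) (hg : GermS g D) :
      GermS (powG g m) {q | ∃ p ∈ D, q = (p.1, (m : ℤ) * p.2)}
  | cone {σ J : Type} [Fintype σ] [Finite J] (g : J → MvPolynomial σ ℂ) (w : σ → ℕ)
      (d : ℕ) (hd : 0 < d) (hg : ∀ j, IsWeightedHomogeneous w (g j) d)
      (hw : ∀ u : σ → ℂ, Pts g w u → ∀ k : ℕ, (∀ i, u i ≠ 0 → k ∣ w i) → k = 1)
      {Ω : Type} [Finite Ω] (τ J' : Ω → Type) [∀ ω, Finite (τ ω)] [∀ ω, Finite (J' ω)]
      (g' : ∀ ω, J' ω → MvPolynomial (τ ω) ℂ) (D : Ω → Set (ℤ × ℤ))
      (f : ∀ ω, τ ω → MvPolynomial σ ℂ) (h : Ω → MvPolynomial σ ℂ)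
      (hg' : ∀ ω, GermS (g' ω) (D ω)) (he : ∀ ω, Qh.EqOff (h ω) g fun l => bind₁ (f ω) (g' ω l))
      (hu : ∀ u : σ → ℂ, Pts g w u → (∃ ω, Qh.Center (f ω) (h ω) u) ∨ LocFold g u)
      (hv : ((∀ k : ℕ, (∀ i, k ∣ w i) → k = 1) ∧ ∃ ι : σ → J,
          AlgebraicIndependent ℂ fun i => if w i = 0 then X i else g (ι i)) ∨
        ∃ u : σ → ℂ, Pts g w u ∧ ∃ q, LocPair g u q ∧ (d : ℤ) ∣ (∑ i, w i : ℕ) * q.2) :
      GermS g {q | q = (-((∑ i, w i : ℕ) : ℤ), (d : ℤ)) ∨ ∃ u : σ → ℂ, Pts g w u ∧
        (LocPair g u q ∨ ∃ ω, Qh.Center (f ω) (h ω) u ∧ q ∈ D ω)}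

end Pool.Agent.D0H67.TS
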