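import Pool.Agent.D0H67.TS.Stm
import Pool.Agent.D0H67.CX.Good3

/-! # Nice points near the origin -/

set_option autoImplicit false
set_option linter.unusedSectionVars false
set_option linter.unusedVariables false

namespace Pool.Agent.D0H67.TS

open MvPolynomial Pool.Agent.W428.MOT Pool.Agent.TH192.MT Pool.Agent.TH192.DT
  Pool.Agent.D0H67.SUB Pool.Agent.D0H67.PM Pool.Agent.D0H67.CX Pool.Agent.D0H67.CX.Loc

/-- near the origin there are points with `Z^mon = (1 - t ^ M₀) ^ k`, `s₀ M₀ ∈ ℤ` -/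
def RN {σ J : Type} [Fintype σ] (g : J → MvPolynomial σ ℂ) (s₀ : ℚ) : Prop :=
  ∀ ε : ℝ, 0 < ε → ∃ p : σ → ℂ, ‖p‖ < ε ∧ ∃ (y : J → ℂ) (M₀ k : ℕ), Nice g p y M₀ k ∧
    ∃ z : ℤ, s₀ * (M₀ : ℚ) = z

namespace N

section lift

variable {σ J τ J' : Type} [Fintype σ] [Finite J] [Fintype τ] [Finite J']

/-- the monodromy zeta functions of `g'` near the origin give monodromy zeta functions of `g` near
the center -/
theorem lift_real (hNEAR : S_NEAR) (hLIFT : S_LIFTN) (g : J → MvPolynomial σ ℂ)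
    (g' : J' → MvPolynomial τ ℂ) (f : τ → MvPolynomial σ ℂ) (h : MvPolynomial σ ℂ)
    (he : CX.EqOff h g fun l => bind₁ f (g' l)) (u : σ → ℂ) (hu : CX.Center f h u) (s₀ : ℚ)
    (hr : RN g' s₀) (ε : ℝ) (hε : 0 < ε) : ∃ p : σ → ℂ, ‖p - u‖ < ε ∧
      ∃ (y : J → ℂ) (M₀ k : ℕ), Nice g p y M₀ k ∧ ∃ z : ℤ, s₀ * (M₀ : ℚ) = z := by
  classical
  obtain ⟨hf0, hli, hhu⟩ := hu
  obtain ⟨κ0, hκ0, hdet⟩ := Small.minor _ hli
  set H : MvPolynomial σ ℂ := h * (Matrix.of fun i j => pderiv (κ0 j) (f i) :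
        Matrix τ τ (MvPolynomial σ ℂ)).det with hH
  have hev : ∀ x : σ → ℂ, eval x H = eval x h *
      (Matrix.of fun i j => eval x (pderiv (κ0 j) (f i)) : Matrix τ τ ℂ).det := by
    intro x
    rw [hH, map_mul, RingHom.map_det]
    rfl
  have hHu : eval u H ≠ 0 := by
    rw [hev]
    exact mul_ne_zero hhu hdet
  have hopen : IsOpen {x : σ → ℂ | eval x H ≠ 0} :=
    isOpen_ne_fun (MvPolynomial.continuous_eval H) continuous_const
  obtain ⟨ε₁, hε₁, hball⟩ := Metric.isOpen_iff.1 hopen u hHu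
  obtain ⟨δ, hδ, hnear⟩ := hNEAR f u hli (min ε ε₁) (lt_min hε hε₁)
  obtain ⟨p', hp'δ, y', b, k, hy', hb⟩ := hr δ hδ
  have h0 : (fun i => eval u (f i)) = 0 := funext hf0
  obtain ⟨p, hp, hfp⟩ := hnear p' (by rw [h0, sub_zero]; exact hp'δ)
  have hpH : eval p H ≠ 0 := hball (by
    rw [Metric.mem_ball, dist_eq_norm]
    exact lt_of_lt_of_le hp (min_le_right _ _))
  rw [hev] at hpH
  have hfp' : (fun i => eval p (f i)) = p' := funext hfp
  rw [← hfp'] at hy'
  obtain ⟨y, hy⟩ := hLIFT g g' f h he.1 he.2 κ0 p hκ0 (right_ne_zero_of_mul hpH)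
    (left_ne_zero_of_mul hpH) y' _ _ hy'
  exact ⟨p, lt_of_lt_of_le hp (min_le_left _ _), y, b, k, hy, hb⟩

/-- at the origin -/
theorem real_pull (hNEAR : S_NEAR) (hLIFT : S_LIFTN) (g : J → MvPolynomial σ ℂ)
    (g' : J' → MvPolynomial τ ℂ) (f : τ → MvPolynomial σ ℂ) (h : MvPolynomial σ ℂ)
    (he : CX.EqOff h g fun l => bind₁ f (g' l)) (hu : CX.Center f h 0) (s₀ : ℚ)
    (hr : RN g' s₀) : RN g s₀ := by
  intro ε hε
  obtain ⟨p, hp, y, b, k, h1, h2⟩ := lift_real hNEAR hLIFT g g' f h he 0 hu s₀ hr ε hε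
  exact ⟨p, by rwa [sub_zero] at hp, y, b, k, h1, h2⟩

end lift

section

variable {σ J : Type} [Fintype σ] [Finite J] (g : J → MvPolynomial σ ℂ)

/-- scaling -/
theorem scale (hSCALE : S_SCALEN) (w : σ → ℕ) (d : ℕ)
    (hg : ∀ j, IsWeightedHomogeneous w (g j) d) (u : σ → ℂ) (hu : ∀ i, w i = 0 → u i = 0)
    (Φ : ℕ → Prop)
    (h : ∀ ε : ℝ, 0 < ε → ∃ p : σ → ℂ, ‖p - u‖ < ε ∧ ∃ (y : J → ℂ) (b k : ℕ),
      Nice g p y b k ∧ Φ b) (ε : ℝ) (hε : 0 < ε) :
    ∃ p : σ → ℂ, ‖p‖ < ε ∧ ∃ (y : J → ℂ) (b k : ℕ), Nice g p y b k ∧ Φ b := by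
  obtain ⟨p, hp, y, b, k, h1, h2⟩ := h ε hε
  have hr0 : 0 < ε / (2 * (‖p‖ + 1)) := by positivity
  have hr : 0 < min 1 (ε / (2 * (‖p‖ + 1))) := lt_min one_pos hr0
  have hr' : ((min 1 (ε / (2 * (‖p‖ + 1))) : ℝ) : ℂ) ≠ 0 := by exact_mod_cast hr.ne'
  refine ⟨_, ?_, y, b, k, hSCALE g w d hg _ hr' p y b k h1, h2⟩
  rw [pi_norm_lt_iff hε]
  intro i
  rcases Nat.eq_zero_or_pos (w i) with h3 | h3
  · rw [h3, pow_zero, one_mul]
    have h4 : p i = (p - u) i := by rw [Pi.sub_apply, hu i h3, sub_zero]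
    rw [h4]
    exact lt_of_le_of_lt (norm_le_pi_norm _ i) hp
  · rw [norm_mul, norm_pow, Complex.norm_real, Real.norm_of_nonneg hr.le]
    have h4 : ‖p i‖ ≤ ‖p‖ := norm_le_pi_norm _ i
    have h5 : 0 ≤ ‖p‖ := norm_nonneg _
    have h6 : min 1 (ε / (2 * (‖p‖ + 1))) ^ w i ≤ ε / (2 * (‖p‖ + 1)) :=
      (pow_le_of_le_one hr.le (min_le_left _ _) h3.ne').trans (min_le_right _ _)
    refine lt_of_le_of_lt (mul_le_mul_of_nonneg_right h6 (norm_nonneg _)) ?_
    rw [div_mul_eq_mul_div, div_lt_iff₀ (by positivity)]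
    nlinarith [norm_nonneg (p i)]

/-- the pairs of the charts, near the point `u` -/
theorem chart (hNEAR : S_NEAR) (hLIFT : S_LIFTN) (hFOLD : S_FOLDN) (u : σ → ℂ) (q : ℤ × ℤ) (hq : LocPair g u q)
    (ε : ℝ) (hε : 0 < ε) : ∃ p : σ → ℂ, ‖p - u‖ < ε ∧ ∃ y : J → ℂ,
      Nice g p y q.2.toNat 1 := by
  classical
  obtain ⟨τ, S, iτ, iS, κ, hκ, c, P, hP, f, h, hch, A, hA, hyA, hpos, rfl⟩ := hq
  obtain ⟨hc, hG, hX, hli, hhu, hI1, hI2⟩ := hch
  obtain ⟨κ0, hκ0, hdet⟩ := Small.minor _ hli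
  set H : MvPolynomial σ ℂ := h * (Matrix.of fun i j => pderiv (κ0 j) (f i) :
        Matrix τ τ (MvPolynomial σ ℂ)).det with hH
  have hev : ∀ x : σ → ℂ, eval x H = eval x h *
      (Matrix.of fun i j => eval x (pderiv (κ0 j) (f i)) : Matrix τ τ ℂ).det := by
    intro x
    rw [hH, map_mul, RingHom.map_det]
    rfl
  have hHu : eval u H ≠ 0 := by
    rw [hev]
    exact mul_ne_zero hhu hdet
  have hopen : IsOpen {x : σ → ℂ | eval x H ≠ 0} :=
    isOpen_ne_fun (MvPolynomial.continuous_eval H) continuous_const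
  obtain ⟨ε₁, hε₁, hball⟩ := Metric.isOpen_iff.1 hopen u hHu
  obtain ⟨δ, hδ, hnear⟩ := hNEAR f u hli (min ε ε₁) (lt_min hε hε₁)
  obtain ⟨p', hp'G, hp'δ, hp'⟩ := Small.gen (Gs c A) (fun s : {s // s ∉ A} => zeros (c s))
    (fun s hs => s.2 (hA s hs)) (fun i => eval u (f i)) hyA δ hδ
  obtain ⟨p, hp, hfp⟩ := hnear p' hp'δ
  have hpH : eval p H ≠ 0 := hball (by
    rw [Metric.mem_ball, dist_eq_norm]
    exact lt_of_lt_of_le hp (min_le_right _ _))
  rw [hev] at hpH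
  obtain ⟨y', hy'⟩ := hFOLD c P hP hc A hpos (hX A hA hpos) p' hp'G
    fun s hs => hp' ⟨s, hs⟩
  have hfp' : (fun i => eval p (f i)) = p' := funext hfp
  rw [← hfp'] at hy'
  obtain ⟨y, hy⟩ := hLIFT g (gensP P c) f h hI1 hI2 κ0 p hκ0 (right_ne_zero_of_mul hpH)
    (left_ne_zero_of_mul hpH) y' _ _ hy'
  exact ⟨p, lt_of_lt_of_le hp (min_le_left _ _), y, hy⟩

end

/-- the products in disjoint variables -/
theorem real_ext (hNEAR : S_NEAR) (hLIFT : S_LIFTN) {σ J τ J' : Type} [Fintype σ] [Finite J]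
    [Fintype τ] [Finite J'] (g : J → MvPolynomial σ ℂ) (g' : J' → MvPolynomial τ ℂ)
    (h0' : ∃ l, g' l ≠ 0) (s₀ : ℚ) (hr : RN g s₀) : RN (extG g g') s₀ := by
  classical
  intro ε hε
  obtain ⟨l, hl⟩ := h0'
  -- a point near the origin where `g' l` is not zero
  have hex : ∃ z : τ → ℂ, ‖z‖ < ε / 2 ∧ eval z (g' l) ≠ 0 := by
    by_contra hcon
    push Not at hcon
    apply hl
    have hcont : Continuous fun z : τ → ℂ => eval z (g' l) := MvPolynomial.continuous_eval _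
    refine MvPolynomial.funext fun z => ?_
    rw [map_zero]
    -- the polynomial `t ↦ g' l (t z)` vanishes for all small `t`
    set P : Polynomial ℂ := aeval (fun i => Polynomial.C (z i) * Polynomial.X) (g' l) with hP
    have hev : ∀ t : ℂ, P.eval t = eval (fun i => z i * t) (g' l) := by
      intro t
      rw [hP, ← Polynomial.coe_evalRingHom, MvPolynomial.aeval_def,
        ← MvPolynomial.coe_eval₂Hom, ← RingHom.comp_apply, MvPolynomial.comp_eval₂Hom]
      change _ = MvPolynomial.eval₂Hom (RingHom.id ℂ) _ (g' l)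
      congr 1
      apply MvPolynomial.ringHom_ext
      · intro a
        simp
      · intro i
        simp
    have hroots : P = 0 := by
      apply Polynomial.eq_zero_of_infinite_isRoot
      refine Set.Infinite.mono (s := Set.range fun n : ℕ =>
        (((ε / 2) / ((‖z‖ + 1) * (n + 1)) : ℝ) : ℂ)) ?_ ?_
      · rintro _ ⟨n, rfl⟩
        change P.IsRoot _
        rw [Polynomial.IsRoot.def, hev]
        apply hcon
        have h1 : 0 < (ε / 2) / ((‖z‖ + 1) * ((n : ℝ) + 1)) := by positivity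
        rw [pi_norm_lt_iff (by positivity)]
        intro i
        rw [norm_mul, Complex.norm_real, Real.norm_of_nonneg h1.le]
        have h2 : ‖z i‖ ≤ ‖z‖ := norm_le_pi_norm _ i
        have h3 : 0 ≤ ‖z‖ := norm_nonneg _
        have h4 : (0 : ℝ) ≤ n := Nat.cast_nonneg n
        rw [mul_div_assoc', div_lt_iff₀ (by positivity)]
        have h5 : ‖z i‖ < (‖z‖ + 1) * ((n : ℝ) + 1) := by nlinarith
        calc ‖z i‖ * (ε / 2) < ((‖z‖ + 1) * ((n : ℝ) + 1)) * (ε / 2) :=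
              mul_lt_mul_of_pos_right h5 (by positivity)
          _ = ε / 2 * ((‖z‖ + 1) * ((n : ℝ) + 1)) := by ring
      · apply Set.infinite_range_of_injective
        intro a b hab
        have h1 : ((ε / 2) / ((‖z‖ + 1) * ((a : ℝ) + 1))) =
            ((ε / 2) / ((‖z‖ + 1) * ((b : ℝ) + 1))) := Complex.ofReal_injective hab
        have h3 : 0 ≤ ‖z‖ := norm_nonneg _
        have ha : (0 : ℝ) ≤ a := Nat.cast_nonneg a
        have hb : (0 : ℝ) ≤ b := Nat.cast_nonneg b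
        rw [div_eq_div_iff (by positivity) (by positivity)] at h1
        have h4 : (‖z‖ + 1) * ((b : ℝ) + 1) = (‖z‖ + 1) * ((a : ℝ) + 1) :=
          mul_left_cancel₀ (by positivity : (ε / 2) ≠ 0) h1
        have h5 : (b : ℝ) + 1 = (a : ℝ) + 1 :=
          mul_left_cancel₀ (by positivity : (‖z‖ + 1) ≠ 0) h4
        exact_mod_cast (add_right_cancel h5).symm
    have h1 := hev 1
    rw [hroots, Polynomial.eval_zero] at h1
    simpa using h1.symm
  obtain ⟨z, hz, hzl⟩ := hex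
  set u : σ ⊕ τ → ℂ := Sum.elim 0 z with hu
  have hun : ‖u‖ < ε / 2 := by
    rw [pi_norm_lt_iff (by positivity)]
    rintro (i | i)
    · simpa [hu] using hε
    · exact lt_of_le_of_lt (norm_le_pi_norm z i) hz
  have hcen : CX.Center (fun i : σ => (X (Sum.inl i) : MvPolynomial (σ ⊕ τ) ℂ))
      (rename Sum.inr (g' l)) u := by
    refine ⟨fun i => ?_, ?_, ?_⟩
    · rw [eval_X, hu, Sum.elim_inl, Pi.zero_apply]
    · rw [Fintype.linearIndependent_iff]
      intro a ha i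
      have h1 := congrFun ha (Sum.inl i)
      rw [Finset.sum_apply, Finset.sum_eq_single i] at h1
      · simpa [pderiv_X] using h1
      · intro b _ hb
        rw [Pi.smul_apply, pderiv_X, Pi.single_eq_of_ne (by
          intro h2
          exact hb (Sum.inl_injective h2)), map_zero, smul_zero]
      · intro h2
        exact absurd (Finset.mem_univ i) h2
    · rw [eval_rename]
      exact hzl
  have heq : CX.EqOff (rename Sum.inr (g' l)) (extG g g')
      fun j => bind₁ (fun i : σ => (X (Sum.inl i) : MvPolynomial (σ ⊕ τ) ℂ)) (g j) := by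
    have hb : ∀ j, bind₁ (fun i : σ => (X (Sum.inl i) : MvPolynomial (σ ⊕ τ) ℂ)) (g j) =
        rename Sum.inl (g j) := by
      intro j
      induction g j using MvPolynomial.induction_on with
      | C a => simp
      | add p q hp hq => rw [map_add, map_add, hp, hq]
      | mul_X p i hp => rw [map_mul, map_mul, hp, bind₁_X_right, rename_X]
    constructor
    · rintro ⟨j, m⟩
      refine Ideal.mul_mem_left _ _ ?_
      unfold extG
      refine Ideal.mul_mem_right _ _ (Ideal.subset_span ⟨j, hb j⟩)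
    · intro j
      refine Ideal.subset_span ⟨(j, l), ?_⟩
      change extG g g' (j, l) = _ * bind₁ _ (g j)
      rw [hb]
      unfold extG
      rw [mul_comm]
  obtain ⟨p, hp, y, b, k, h1, h2⟩ := lift_real hNEAR hLIFT (extG g g') g
    (fun i : σ => (X (Sum.inl i) : MvPolynomial (σ ⊕ τ) ℂ)) (rename Sum.inr (g' l)) heq u hcen s₀
    hr (ε / 2) (by positivity)
  refine ⟨p, ?_, y, b, k, h1, h2⟩
  have h3 : ‖p‖ ≤ ‖p - u‖ + ‖u‖ := by
    have := norm_add_le (p - u) u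
    rwa [sub_add_cancel] at this
  linarith


end N

end Pool.Agent.D0H67.TS
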