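import Pool.Agent.D0H67.TS.DStm

/-! # Minors of generic symmetric matrices: statements of the modules

As `TS/DStm.lean`, with principal minors for the charts; the variables are the unordered pairs
`s(i, j)`. -/

set_option autoImplicit false
set_option linter.unusedSectionVars false
set_option linter.unusedVariables false

namespace Pool.Agent.D0H67.TS

open MvPolynomial Pool.Agent.W428.MOT Pool.Agent.TH192.MT Pool.Agent.TH192.DT
  Pool.Agent.D0H67.SUB Pool.Agent.D0H67.PM Pool.Agent.D0H67.CX Pool.Agent.D0H67.CX.Qh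

/-- The minors of size `k` of the generic symmetric matrix with the rows and columns `m`. -/
noncomputable def minS (m : Type) (k : ℕ) (q : (Fin k → m) × (Fin k → m)) :
    MvPolynomial (Sym2 m) ℂ :=
  (Matrix.of fun i j => X s(q.1 i, q.2 j) :
    Matrix (Fin k) (Fin k) (MvPolynomial (Sym2 m) ℂ)).det

/-- The bordered principal minors: the images of the `brd m m a a` under `X (i, j) ↦ X s(i, j)`. -/
noncomputable def brdS (m : Type) {r : ℕ} (a : Fin r → m)
    (p : Sym2 {i : m // i ∉ Set.range a}) : MvPolynomial (Sym2 m) ℂ :=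
  rename (fun p : m × m => s(p.1, p.2)) (brd m m a a (Quot.out p))

/-- (SSYL) from SYLA and SYLB by `rename (fun p => s(p.1, p.2))` (`minS m k q` is the image of
`minG m m k q`); the image of `brd m m a a (i, j)` is symmetric in `i`, `j` (the adjugate of a symmetric
matrix is symmetric), so it is `brdS m a s(i, j)`. -/
def S_SSYL : Prop :=
  ∀ {m : Type} [Fintype m] {r k : ℕ} (a : Fin r → m), r ≤ k →
    Qh.EqOff (minS m r (a, a) ^ k) (minS m k) fun l =>
      bind₁ (brdS m a) (minS {i : m // i ∉ Set.range a} (k - r) l)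

/-- (SCEN) the derivative of `brdS m a s(i, j)` by `X s(i', j')`, `i', j' ∉ a`, is `Δ` if
`s(i, j) = s(i', j')` and `0` otherwise -/
def S_SCEN : Prop :=
  ∀ {m : Type} [Fintype m] {r : ℕ} (a : Fin r → m) (u : Sym2 m → ℂ),
    eval u (minS m r (a, a)) ≠ 0 → (∀ p, eval u (brdS m a p) = 0) → ∀ k : ℕ,
    Qh.Center (brdS m a) (minS m r (a, a) ^ k) u

/-- (SRANK) `S_RANK` for `M (i, j) = u s(i, j)` gives `a`, `b` with `Δ = det M(a, b) ≠ 0` and
`Δ M_ij = ∑ t, U_it M(a t, j)` for all `i`, `j`, `U_i = M(i, b) adj M(a, b)` (clear for `j ∈ b` and for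
`i ∈ a`). As `M` is symmetric, `Δ M(a, b) = M(a, a) U(b, ·)ᵀ`, so `det M(a, a) ≠ 0`; and the bordered minors
for `(a, a)` vanish: `M(i, a) adj M(a, a) M(a, j) = Δ⁻¹ U_i M(a, a) adj M(a, a) M(a, j)`. -/
def S_SRANK : Prop :=
  ∀ {m : Type} [Fintype m] (k : ℕ) (u : Sym2 m → ℂ), u ≠ 0 →
    (∀ q, eval u (minS m k q) = 0) → ∃ r, 1 ≤ r ∧ r < k ∧ ∃ a : Fin r → m,
    Function.Injective a ∧ eval u (minS m r (a, a)) ≠ 0 ∧ ∀ p, eval u (brdS m a p) = 0

/-- (SAIND) as AIND, with principal `(k + 1)`-submatrices (they contain the variable `s(i, j)`) -/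
def S_SAIND : Prop :=
  ∀ {m : Type} [Fintype m] (k : ℕ), 1 ≤ k → k < Fintype.card m →
    ∃ ι : Sym2 m → (Fin k → m) × (Fin k → m),
    AlgebraicIndependent ℂ fun i => minS m k (ι i)

/-- (SBASE) as BASE1 (`Pool.Agent.D0H67.TS.t_BASE1` in `TS/Hom.lean`) -/
def S_SBASE : Prop :=
  ∀ {m : Type} [Fintype m] [Nonempty m], ∃ D, GermS (minS m 1) D

/-- (SHOM) as HOM (`Pool.Agent.D0H67.TS.t_HOM` in `TS/Hom.lean`) -/
def S_SHOM : Prop :=
  ∀ {m : Type} [Fintype m] (k : ℕ) (q : (Fin k → m) × (Fin k → m)),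
    IsWeightedHomogeneous (fun _ : Sym2 m => 1) (minS m k q) k

end Pool.Agent.D0H67.TS
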