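import Pool.Agent.D0H67.TS.SStm

/-! # Minors of generic symmetric matrices belong to the class: the induction -/

set_option autoImplicit false
set_option linter.unusedSectionVars false
set_option linter.unusedVariables false

namespace Pool.Agent.D0H67.TS

open MvPolynomial Pool.Agent.W428.MOT Pool.Agent.TH192.MT Pool.Agent.TH192.DT
  Pool.Agent.D0H67.SUB Pool.Agent.D0H67.PM Pool.Agent.D0H67.CX Pool.Agent.D0H67.CX.Qh

theorem sdet_germ (hSSYL : S_SSYL) (hSCEN : S_SCEN) (hSRANK : S_SRANK)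
    (hSAIND : S_SAIND) (hSBASE : S_SBASE) (hSHOM : S_SHOM) :
    ∀ (k : ℕ) {m : Type} [Fintype m], 1 ≤ k → k < Fintype.card m →
      ∃ D, GermS (minS m k) D := by
  classical
  intro k
  induction k using Nat.strong_induction_on with
  | _ k ih =>
    intro m _ hk hm
    have hmn : Nonempty m := Fintype.card_pos_iff.1 (by omega)
    by_cases hk1 : k = 1
    · subst hk1
      exact hSBASE
    have hk2 : 2 ≤ k := by omega
    -- the charts
    let Ω : Type := {x : Σ r : Fin k, (Fin r → m) // 1 ≤ (x.1 : ℕ) ∧ Function.Injective x.2}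
    have hD : ∀ ω : Ω, ∃ D, GermS (minS {i : m // i ∉ Set.range ω.1.2} (k - ω.1.1)) D := by
      intro ω
      have hr : (ω.1.1 : ℕ) < k := ω.1.1.2
      have h1 : Fintype.card {i : m // i ∉ Set.range ω.1.2} = Fintype.card m - ω.1.1 := by
        rw [Fintype.card_subtype_compl (fun i => i ∈ Set.range ω.1.2)]
        congr 1
        have h2 : Fintype.card {x // x ∈ Set.range ω.1.2} = Fintype.card (Set.range ω.1.2) := rfl
        rw [h2, Set.card_range_of_injective ω.2.2, Fintype.card_fin]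
      refine ih (k - ω.1.1) (by have := ω.2.1; omega) (by omega) ?_
      rw [h1]
      omega
    choose D hD using hD
    refine ⟨_, GermS.cone (minS m k) (fun _ => 1) k (by omega) (fun q => hSHOM k q) ?_
      (Ω := Ω) (fun ω => Sym2 {i : m // i ∉ Set.range ω.1.2})
      (fun ω => (Fin (k - ω.1.1) → {i : m // i ∉ Set.range ω.1.2}) ×
        (Fin (k - ω.1.1) → {i : m // i ∉ Set.range ω.1.2}))
      (fun ω => minS {i : m // i ∉ Set.range ω.1.2} (k - ω.1.1)) D
      (fun ω => brdS m ω.1.2)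
      (fun ω => minS m ω.1.1 (ω.1.2, ω.1.2) ^ k) hD ?_ ?_ ?_⟩
    · rintro u ⟨⟨hu0, -⟩, -⟩ k' hk'
      obtain ⟨i, hi⟩ := Function.ne_iff.1 hu0
      exact Nat.dvd_one.1 (hk' i hi)
    · intro ω
      exact hSSYL ω.1.2 ω.1.1.2.le
    · rintro u ⟨⟨hu0, -⟩, hug⟩
      obtain ⟨r, hr1, hrk, a, ha, hab, hbr⟩ := hSRANK k u hu0 hug
      exact Or.inl ⟨⟨⟨⟨r, hrk⟩, a⟩, hr1, ha⟩, hSCEN a u hab hbr k⟩
    · left
      obtain ⟨i₀⟩ := hmn
      refine ⟨fun k' hk' => Nat.dvd_one.1 (hk' s(i₀, i₀)), ?_⟩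
      obtain ⟨ι, hι⟩ := hSAIND k hk hm
      refine ⟨ι, ?_⟩
      simpa using hι

end Pool.Agent.D0H67.TS
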