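import Pool.Agent.D0H67.TS.SStm

set_option autoImplicit false
set_option linter.unusedSectionVars false
set_option linter.unusedVariables false

namespace Pool.Agent.D0H67.TS

open MvPolynomial Pool.Agent.W428.MOT Pool.Agent.TH192.MT Pool.Agent.TH192.DT
  Pool.Agent.D0H67.SUB Pool.Agent.D0H67.PM Pool.Agent.D0H67.CX Pool.Agent.D0H67.CX.Qh

theorem t_SHOM : S_SHOM := by
  intro m _ k q
  unfold minS
  rw [Matrix.det_apply]
  refine IsWeightedHomogeneous.sum _ _ _ fun σ _ => ?_
  have h : IsWeightedHomogeneous (fun _ : Sym2 m => 1)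
      (∏ i, (Matrix.of fun i j => X s(q.1 i, q.2 j) :
        Matrix (Fin k) (Fin k) (MvPolynomial (Sym2 m) ℂ)) (σ i) i) (∑ _i : Fin k, 1) :=
    IsWeightedHomogeneous.prod _ _ _ fun i _ => isWeightedHomogeneous_X _ _ _
  rw [Finset.sum_const, Finset.card_univ, Fintype.card_fin, smul_eq_mul, mul_one] at h
  rw [Units.smul_def, ← Int.cast_smul_eq_zsmul ℂ, smul_eq_C_mul]
  have h2 := (isWeightedHomogeneous_C (fun _ : Sym2 m => 1)
    (((Equiv.Perm.sign σ : ℤˣ) : ℤ) : ℂ)).mul h
  rwa [zero_add] at h2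

theorem t_SBASE : S_SBASE := by
  intro m _ _
  classical
  haveI : Nonempty (Sym2 m) := ⟨s(Classical.arbitrary m, Classical.arbitrary m)⟩
  set N := Fintype.card (Sym2 m) with hN
  have hN0 : 0 < N := Fintype.card_pos
  let e : Fin N ≃ Sym2 m := (Fintype.equivFin (Sym2 m)).symm
  let f : Fin N → MvPolynomial (Sym2 m) ℂ := fun i => X (e i)
  have hfold := GermS.fold (Smooth.cU N) (Smooth.PU 1) (Smooth.hPU 1) (fun s => by
    rw [Smooth.zeros_cU]
    intro hbt
    have h3 : (fun _ => 1 : Fin N → ℂ) ∈ (⊥ : Submodule ℂ (Fin N → ℂ)) := by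
      rw [hbt]; trivial
    rw [Submodule.mem_bot] at h3
    exact one_ne_zero (congrFun h3 ⟨0, hN0⟩)) (Smooth.greedy_U 1) (fun A _ _ => Smooth.exch_U 1 A)
  have hspan := Smooth.span_eq N 1 f
  rw [pow_one] at hspan
  have hdet : ∀ q : (Fin 1 → m) × (Fin 1 → m), minS m 1 q = X s(q.1 0, q.2 0) := by
    intro q
    unfold minS
    rw [Matrix.det_fin_one]
    rfl
  refine ⟨_, GermS.pull (minS m 1) _ _ f 1 hfold ⟨fun i => ?_, ?_, ?_⟩ ⟨fun q => ?_, fun l => ?_⟩⟩
  · change eval (0 : Sym2 m → ℂ) (X (e i)) = 0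
    rw [eval_X]
    rfl
  · rw [Fintype.linearIndependent_iff]
    intro a ha i
    have h1 := congrFun ha (e i)
    rw [Finset.sum_apply, Finset.sum_eq_single i] at h1
    · simpa [f, pderiv_X] using h1
    · intro b _ hb
      change a b • eval (0 : Sym2 m → ℂ) (pderiv (e i) (X (e b))) = 0
      rw [pderiv_X, Pi.single_eq_of_ne (by
        intro h2
        exact hb (e.injective h2)), map_zero, smul_zero]
    · intro h2
      exact absurd (Finset.mem_univ i) h2
  · rw [map_one]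
    exact one_ne_zero
  · rw [one_mul, hspan, hdet]
    refine Ideal.subset_span ⟨e.symm s(q.1 0, q.2 0), ?_⟩
    change X (e (e.symm _)) = _
    rw [Equiv.apply_symm_apply]
  · rw [one_mul]
    have h4 : bind₁ f (gensP (Smooth.PU 1) (Smooth.cU N) l) ∈ Ideal.span (Set.range f) := by
      rw [← hspan]
      exact Ideal.subset_span ⟨l, rfl⟩
    refine Ideal.span_le.2 ?_ h4
    rintro _ ⟨i, rfl⟩
    obtain ⟨⟨a, b⟩, hab⟩ := Sym2.mk_surjective (e i)
    refine Ideal.subset_span ⟨(fun _ => a, fun _ => b), ?_⟩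
    rw [hdet]
    change X s(a, b) = X (e i)
    rw [← hab]
    rfl

end Pool.Agent.D0H67.TS
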