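import Pool.Agent.D0H67.TS.Wcore
import Pool.Agent.D0H67.TS.Nreal
import Pool.Agent.D0H67.TS.Germ

/-! # The induction steps -/

set_option autoImplicit false
set_option linter.unusedSectionVars false
set_option linter.unusedVariables false

namespace Pool.Agent.D0H67.TS

open MvPolynomial Pool.Agent.W428.MOT Pool.Agent.TH192.MT Pool.Agent.TH192.DT
  Pool.Agent.D0H67.SUB Pool.Agent.D0H67.PM Pool.Agent.D0H67.CX Pool.Agent.D0H67.CX.Loc
  Pool.Agent.D0H67.CX.GermT Pool.Agent.D0H67.CX.Good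

/-- the tail series lies in the ring -/
def TP {σ J : Type} [Fintype σ] (g : J → MvPolynomial σ ℂ) (D : Set (ℤ × ℤ)) : Prop :=
  ∀ M : Meas ℂ (MK ℂ), M.L = ((Lu ℂ : (MK ℂ)ˣ) : MK ℂ) →
    tl 1 (ZF M (((Lu ℂ)⁻¹ : (MK ℂ)ˣ) : MK ℂ) g {0}) ∈ ratU (Lu ℂ) D

/-- the property of the germs -/
def Gs2 {σ J : Type} [Fintype σ] (g : J → MvPolynomial σ ℂ) (D : Set (ℤ × ℤ)) : Prop :=
  (∀ q ∈ D, 0 < q.2) ∧ TP g D ∧ ∀ q ∈ D, RN g ((q.1 : ℚ) / q.2)

theorem WF_zero {σ J : Type} [Fintype σ] (M : Meas ℂ (MK ℂ)) (v : MK ℂ)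
    (g : J → MvPolynomial σ ℂ) : WF M v g {0} = tl 1 (ZF M v g {0}) := by
  unfold WF
  rw [Trn.chi_zero]

theorem center_memW {σ J τ J' : Type} [Fintype σ] [Finite J] [Fintype τ] [Finite J']
    (M : Meas ℂ (MK ℂ))
    (hL : M.L = ((Lu ℂ : (MK ℂ)ˣ) : MK ℂ)) (g : J → MvPolynomial σ ℂ)
    (g' : J' → MvPolynomial τ ℂ) (f : τ → MvPolynomial σ ℂ) (h : MvPolynomial σ ℂ)
    (he : CX.EqOff h g fun l => bind₁ f (g' l)) [DecidableEq τ] (κ0 : τ → σ)
    (hκ0 : Function.Injective κ0) (D : Set (ℤ × ℤ)) (hD : TP g' D)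
    (B : Set (Pt ℂ σ)) (hB : Constr B) (hBf : ∀ x ∈ B, vf f x = 0) (hBh : ∀ x ∈ B, aeval x h ≠ 0)
    (hdet : ∀ x ∈ B, (jac f κ0 x).det ≠ 0) :
    WF M (((Lu ℂ)⁻¹ : (MK ℂ)ˣ) : MK ℂ) g B ∈ ratU (Lu ℂ) D := by
  have hLw : M.L * (((Lu ℂ)⁻¹ : (MK ℂ)ˣ) : MK ℂ) = 1 := by rw [hL, Units.mul_inv]
  unfold WF
  rw [Cen.series hFIB hORDT g g' f h he.1 he.2 κ0 hκ0 B hB hBf hBh hdet M _ hLw, tl_C]
  exact Subalgebra.mul_mem _ (rat_C _ _) (hD M hL)

theorem pull_zeta {σ J τ J' : Type} [Fintype σ] [Finite J] [Fintype τ] [Finite J']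
    (g : J → MvPolynomial σ ℂ) (g' : J' → MvPolynomial τ ℂ) (D : Set (ℤ × ℤ))
    (f : τ → MvPolynomial σ ℂ) (h : MvPolynomial σ ℂ) (hg' : TP g' D) (hf : CX.Center f h 0)
    (he : CX.EqOff h g fun l => bind₁ f (g' l)) : TP g D := by
  classical
  intro M hL
  obtain ⟨κ0, hκ0, hdet⟩ := Small.minor _ hf.2.1
  rw [← WF_zero]
  refine center_memW M hL g g' f h he κ0 hκ0 D hg' {0}
    Shift.constr_z ?_ ?_ ?_
  · rintro x rfl
    funext i
    have h0 : (0 : Pt ℂ σ) = fun i => algebraMap ℂ (AlgebraicClosure ℂ) ((0 : σ → ℂ) i) := by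
      funext i
      simp
    unfold vf
    rw [h0, aevalA, hf.1 i, map_zero]
    rfl
  · rintro x rfl
    have h0 : (0 : Pt ℂ σ) = fun i => algebraMap ℂ (AlgebraicClosure ℂ) ((0 : σ → ℂ) i) := by
      funext i
      simp
    rw [h0, aevalA]
    intro h1
    exact hf.2.2 (injA (by rw [h1, map_zero]))
  · rintro x rfl
    have h0 : (0 : Pt ℂ σ) = fun i => algebraMap ℂ (AlgebraicClosure ℂ) ((0 : σ → ℂ) i) := by
      funext i
      simp
    rw [h0, jac_det]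
    intro h1
    exact hdet (injA (by rw [h1, map_zero]))

theorem pull (hLIFT : S_LIFTN) {σ J τ J' : Type} [Fintype σ] [Finite J] [Fintype τ] [Finite J']
    (g : J → MvPolynomial σ ℂ) (g' : J' → MvPolynomial τ ℂ) (D : Set (ℤ × ℤ))
    (f : τ → MvPolynomial σ ℂ) (h : MvPolynomial σ ℂ) (hg' : Gs2 g' D) (hf : CX.Center f h 0)
    (he : CX.EqOff h g fun l => bind₁ f (g' l)) : Gs2 g D :=
  ⟨hg'.1, pull_zeta g g' D f h hg'.2.1 hf he, fun q hq =>
    N.real_pull hNEAR hLIFT g g' f h he hf _ (hg'.2.2 q hq)⟩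

/-- the chart at the origin -/
theorem fold (hRAT : S_RAT2T) (hADDW : S_ADD2W) (hFOLD : S_FOLDN) {σ S : Type} [Fintype σ]
    [Fintype S] {κ : S → Type} [∀ s, Finite (κ s)]
    (c : (s : S) → κ s → σ → ℂ) (P : Finset (S → ℕ)) (hP : P.Nonempty)
    (hc : ∀ s, zeros (c s) ≠ ⊤) (hG : Greedy P hP)
    (hX : ∀ A : Finset S, Closed c A → 0 < fP P hP A → ExchOn P hP A) :
    Gs2 (gensP P c) (CX.Qh.foldPairs c P hP) := by
  classical
  refine ⟨?_, ?_, ?_⟩
  · rintro q ⟨A, -, hA, rfl⟩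
    exact Int.natCast_pos.2 hA
  · intro M hL
    have hLw : M.L * (((Lu ℂ)⁻¹ : (MK ℂ)ˣ) : MK ℂ) = 1 := by rw [hL, Units.mul_inv]
    rw [← WF_zero]
    have hb : ∀ l, bind₁ (fun i : σ => (X i : MvPolynomial σ ℂ)) (gensP P c l) = gensP P c l :=
      fun l => by rw [bind₁_X_left]; rfl
    have hjac : ∀ u : σ → ℂ, (Matrix.of fun i j => eval u (pderiv (_root_.id j)
        (X i : MvPolynomial σ ℂ)) : Matrix σ σ ℂ) = 1 := by
      intro u
      ext i j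
      rw [Matrix.of_apply, pderiv_X, id_eq, Matrix.one_apply]
      by_cases hij : i = j
      · rw [hij, if_pos rfl, Pi.single_eq_same, map_one]
      · rw [if_neg hij, Pi.single_eq_of_ne hij, map_zero]
    have hch : IsChart (gensP P c) c P hP (fun i : σ => (X i : MvPolynomial σ ℂ)) 1
        (0 : σ → ℂ) := by
      refine ⟨hc, hG, hX, ?_, by rw [map_one]; exact one_ne_zero, fun j => ?_, fun l => ?_⟩
      · refine indep_of_det _ _root_.id ?_
        rw [hjac, Matrix.det_one]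
        exact one_ne_zero
      · rw [one_mul]
        exact Ideal.subset_span ⟨j, hb j⟩
      · rw [one_mul, hb]
        exact Ideal.subset_span ⟨l, rfl⟩
    have hz : ∀ w : σ → ℂ, (fun i => algebraMap ℂ (AlgebraicClosure ℂ) (w i)) ∈
        ({0} : Set (Pt ℂ σ)) → w = 0 := by
      intro w hw
      funext i
      exact injA (by rw [show algebraMap ℂ (AlgebraicClosure ℂ) (w i) = 0 from congrFun hw i]; simp)
    refine W.piece (gensP P c) hORDT hZST hRAT M hL (hADDW (gensP P c) M _ hLw).1 c P hP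
      (fun i : σ => (X i : MvPolynomial σ ℂ)) 1 0 hch (fun w => w = 0) _ ?_ _root_.id
      Function.injective_id {0} Shift.constr_z hz ?_ ?_
    · rintro w hw - A hA - hpos
      exact ⟨A, hA, hpos, rfl⟩
    · intro x _
      rw [map_one]
      exact one_ne_zero
    · rintro x rfl
      have h0 : (0 : Pt ℂ σ) = fun i => algebraMap ℂ (AlgebraicClosure ℂ) ((0 : σ → ℂ) i) := by
        funext i
        simp
      rw [h0, jac_det, hjac, Matrix.det_one, map_one]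
      exact one_ne_zero
  · rintro q ⟨A, hA, hf, rfl⟩ ε hε
    obtain ⟨p, hpG, hpε, hp⟩ := Small.gen (Gs c A) (fun s : {s // s ∉ A} => zeros (c s))
      (fun s hs => s.2 (hA s hs)) 0 (Submodule.zero_mem _) ε hε
    rw [sub_zero] at hpε
    obtain ⟨y, hy⟩ := hFOLD c P hP hc A hf (hX A hA hf) p hpG fun s hs => hp ⟨s, hs⟩
    exact ⟨p, hpε, y, fP P hP A, 1, hy, ratio' hf rfl⟩

end Pool.Agent.D0H67.TS
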