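import Pool.Agent.D0H67.CX.Germ3
import Pool.Agent.D0H67.CX.GermT

/-! # Sums of ideals in disjoint sets of variables: definitions and statements of the modules

`Nice g p y M₀ k`: for `M₀ ∣ N` the variety of the `N`-jets over the point `(p, [y])` of the exceptional
divisor, with the function `c` (the leading coefficient: `g_j = t ^ N (c y_j)`), has the class of `k` copies
of `𝔾_m × 𝔸 ^ m` with the function `u ^ M₀`, and for `M₀ ∤ N` it is empty; so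
`Z^mon = (1 - t ^ M₀) ^ k`. The classes over the line of the `c` are tested with constructible sets `Φ`, with
parameters. -/

set_option autoImplicit false
set_option linter.unusedSectionVars false
set_option linter.unusedVariables false

namespace Pool.Agent.D0H67.TS

open MvPolynomial Pool.Agent.W428.MOT Pool.Agent.TH192.MT Pool.Agent.TH192.DT
  Pool.Agent.D0H67.SUB Pool.Agent.D0H67.PM Pool.Agent.D0H67.SUB.Trn Pool.Agent.D0H67.CX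
  Pool.Agent.D0H67.CX.Qh

/-- the ideal `I + J` in disjoint sets of variables -/
noncomputable def sumG {K : Type} [Field K] {σ τ J J' : Type} (g : J → MvPolynomial σ K)
    (g' : J' → MvPolynomial τ K) : J ⊕ J' → MvPolynomial (σ ⊕ τ) K :=
  Sum.elim (fun j => rename Sum.inl (g j)) fun l => rename Sum.inr (g' l)

/-- the point `p` over the algebraic closure -/
noncomputable def aP {σ : Type} (p : σ → ℂ) : σ → AlgebraicClosure ℂ :=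
  fun i => algebraMap ℂ (AlgebraicClosure ℂ) (p i)

/-- The `N`-jets `z` with `z_0 = p` and `g_j(z) = t ^ N (c y_j)` modulo `t ^ (N + 1)`. -/
def JetC {K : Type} [Field K] {σ J : Type} (g : J → MvPolynomial σ K) (p : Pt K σ)
    (y : J → AlgebraicClosure K) (N : ℕ) (c : AlgebraicClosure K) :
    Set (Pt K (σ × Fin (N + 1))) :=
  {z | (∀ i, z (i, 0) = p i) ∧
    (∀ j, ∀ k < N, PowerSeries.coeff k (aeval (ar z) (g j)) = 0) ∧
    ∀ j, PowerSeries.coeff N (aeval (ar z) (g j)) = c * y j}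

/-- The pairs `(r, z)` with `z ∈ JetC g p y N c`, `c ≠ 0`, `(r, c) ∈ Φ`. -/
def LS {K : Type} [Field K] {σ J ρ : Type} (g : J → MvPolynomial σ K) (p : Pt K σ)
    (y : J → AlgebraicClosure K) (N : ℕ) (Φ : Set (Pt K (ρ ⊕ Unit))) :
    Set (Pt K (ρ ⊕ (σ × Fin (N + 1)))) :=
  {x | ∃ c : AlgebraicClosure K, c ≠ 0 ∧ (fun q => x (Sum.inr q)) ∈ JetC g p y N c ∧
    (Sum.elim (fun r => x (Sum.inl r)) fun _ => c : Pt K (ρ ⊕ Unit)) ∈ Φ}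

/-- The pairs `(r, u)` with `u ≠ 0`, `(r, u ^ M₀) ∈ Φ`. -/
def RS {K : Type} [Field K] {ρ : Type} (M₀ : ℕ) (Φ : Set (Pt K (ρ ⊕ Unit))) :
    Set (Pt K (ρ ⊕ Unit)) :=
  {x | x (Sum.inr ()) ≠ 0 ∧
    (Sum.elim (fun r => x (Sum.inl r)) fun _ => x (Sum.inr ()) ^ M₀ : Pt K (ρ ⊕ Unit)) ∈ Φ}

/-- see the header -/
def NiceN {σ J : Type} [Fintype σ] (g : J → MvPolynomial σ ℂ) (p : Pt ℂ σ)
    (y : J → AlgebraicClosure ℂ) (M₀ k N : ℕ) : Prop :=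
  ∃ m : ℕ, ∀ {ρ : Type} [Fintype ρ] (Φ : Set (Pt ℂ (ρ ⊕ Unit))), Constr Φ →
    Constr (LS g p y N Φ) ∧ ∀ {R : Type} [CommRing R] (M : Meas ℂ R) (v : R), M.L * v = 1 →
      M.χ (ρ ⊕ (σ × Fin (N + 1))) (LS g p y N Φ) =
        (k : R) * M.χ (ρ ⊕ Unit) (RS M₀ Φ) * M.L ^ m

/-- see the header -/
def Nice {σ J : Type} [Fintype σ] (g : J → MvPolynomial σ ℂ) (p : σ → ℂ) (y : J → ℂ)
    (M₀ k : ℕ) : Prop :=
  y ≠ 0 ∧ 0 < M₀ ∧ 0 < k ∧ (∃ N, 0 < N ∧ (JetE g (aP p) (aP y) N).Nonempty) ∧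
  ∀ N, 0 < N → (M₀ ∣ N → NiceN g (aP p) (aP y) M₀ k N) ∧
    (¬ M₀ ∣ N → JetE g (aP p) (aP y) N = ∅)

/-- (MONN) `Φ = univ`, no parameters: `[JetE] = k (𝕃 - 1) 𝕃 ^ m` -/
def S_MONN : Prop :=
  ∀ {σ J : Type} [Fintype σ] [Finite J] (g : J → MvPolynomial σ ℂ) (p : σ → ℂ) (y : J → ℂ)
    (M₀ k : ℕ), Nice g p y M₀ k → MonZeta g p y (Finsupp.single M₀ (k : ℤ))

/-- (GMN) the curve `u ^ M = u' ^ M'`: `gcd` copies of `𝔾_m`, on which `u ^ M = w ^ lcm`. -/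
def S_GMN : Prop :=
  ∀ (M₀ M₀' : ℕ), 0 < M₀ → 0 < M₀' → ∀ {ρ : Type} [Fintype ρ] (Φ : Set (Pt ℂ (ρ ⊕ Unit))),
    Constr Φ →
    Constr {x : Pt ℂ ((ρ ⊕ Unit) ⊕ Unit) | x (Sum.inl (Sum.inr ())) ≠ 0 ∧ x (Sum.inr ()) ≠ 0 ∧
      x (Sum.inr ()) ^ M₀' = x (Sum.inl (Sum.inr ())) ^ M₀ ∧
      (Sum.elim (fun r => x (Sum.inl (Sum.inl r))) fun _ => x (Sum.inr ()) ^ M₀' :
        Pt ℂ (ρ ⊕ Unit)) ∈ Φ} ∧
    ∀ {R : Type} [CommRing R] (M : Meas ℂ R),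
      M.χ ((ρ ⊕ Unit) ⊕ Unit) {x : Pt ℂ ((ρ ⊕ Unit) ⊕ Unit) |
        x (Sum.inl (Sum.inr ())) ≠ 0 ∧ x (Sum.inr ()) ≠ 0 ∧
        x (Sum.inr ()) ^ M₀' = x (Sum.inl (Sum.inr ())) ^ M₀ ∧
        (Sum.elim (fun r => x (Sum.inl (Sum.inl r))) fun _ => x (Sum.inr ()) ^ M₀' :
          Pt ℂ (ρ ⊕ Unit)) ∈ Φ} =
      ((Nat.gcd M₀ M₀' : ℕ) : R) * M.χ (ρ ⊕ Unit) (RS (Nat.lcm M₀ M₀') Φ)

/-- (SUMN) The jets over `((p, p'), [y : y'])` are the pairs of jets with the same `c`. Apply `Nice g` with the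
parameters `ρ ⊕ (τ × Fin (N + 1))` and `{(r, z', c) | z' ∈ JetC g' c, (r, c) ∈ Φ}`, then `Nice g'` with the
parameters `ρ ⊕ Unit` and `{(r, u, c) | u ≠ 0, c = u ^ M₀, (r, c) ∈ Φ}`, then GMN. Nonempty for some `N`: take
`z(t ^ s)`, and `z(μ t)`, to get the same `N` and the same `c`. -/
def S_SUMN : Prop :=
  ∀ {σ τ J J' : Type} [Fintype σ] [Fintype τ] [Finite J] [Finite J']
    (g : J → MvPolynomial σ ℂ) (g' : J' → MvPolynomial τ ℂ) (p : σ → ℂ) (p' : τ → ℂ)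
    (y : J → ℂ) (y' : J' → ℂ) (M₀ k M₀' k' : ℕ), Nice g p y M₀ k → Nice g' p' y' M₀' k' →
    Nice (sumG g g') (Sum.elim p p') (Sum.elim y y') (Nat.lcm M₀ M₀')
      (k * k' * Nat.gcd M₀ M₀')

/-- (ORDC) the last part of `S_ORDT` with `JetC` -/
def S_ORDC : Prop :=
  ∀ {K : Type} [Field K] {σ τ J J' : Type} [Fintype σ] [Fintype τ] [Finite J] [Finite J']
    (g : J → MvPolynomial σ K) (g' : J' → MvPolynomial τ K) (f : τ → MvPolynomial σ K)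
    (h : MvPolynomial σ K),
    (∀ j, h * g j ∈ Ideal.span (Set.range fun l => bind₁ f (g' l))) →
    (∀ l, h * bind₁ f (g' l) ∈ Ideal.span (Set.range g)) →
    ∀ (p : Pt K σ) (y' : J' → AlgebraicClosure K) (N₀ : ℕ) (z₀ : Pt K (σ × Fin (N₀ + 1))),
      aeval p h ≠ 0 → jk z₀ 0 = p → push f z₀ ∈ JetE g' (vf f p) y' N₀ →
      ∃ y : J → AlgebraicClosure K, (y' ≠ 0 → y ≠ 0) ∧ ∀ N c, JetC g p y N c =
        {z : Pt K (σ × Fin (N + 1)) | jk z 0 = p ∧ push f z ∈ JetC g' (vf f p) y' N c}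

/-- (FIBR) as `S_FIB` for `B = {p}`, with parameters -/
def S_FIBR : Prop :=
  ∀ {σ τ : Type} [Fintype σ] [Fintype τ] [DecidableEq τ]
    (f : τ → MvPolynomial σ ℂ) (κ : τ → σ), Function.Injective κ → ∀ p : σ → ℂ,
    (Matrix.of fun i j => eval p (pderiv (κ j) (f i))).det ≠ 0 → ∀ (N : ℕ) {ρ : Type} [Fintype ρ]
    (Ψ : Set (Pt ℂ (ρ ⊕ (τ × Fin (N + 1))))), Constr Ψ →
    (∀ x ∈ Ψ, jk (fun q => x (Sum.inr q)) 0 = vf f (aP p)) →
    Constr {x : Pt ℂ (ρ ⊕ (σ × Fin (N + 1))) | jk (fun q => x (Sum.inr q)) 0 = aP p ∧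
      (Sum.elim (fun r => x (Sum.inl r)) (push f fun q => x (Sum.inr q)) :
        Pt ℂ (ρ ⊕ (τ × Fin (N + 1)))) ∈ Ψ} ∧
    ∀ {R : Type} [CommRing R] (M : Meas ℂ R) (v : R), M.L * v = 1 →
      M.χ (ρ ⊕ (σ × Fin (N + 1))) {x : Pt ℂ (ρ ⊕ (σ × Fin (N + 1))) |
        jk (fun q => x (Sum.inr q)) 0 = aP p ∧
        (Sum.elim (fun r => x (Sum.inl r)) (push f fun q => x (Sum.inr q)) :
          Pt ℂ (ρ ⊕ (τ × Fin (N + 1)))) ∈ Ψ} =
      M.χ _ Ψ * M.L ^ ((Fintype.card σ - Fintype.card τ) * N)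

/-- (LIFTN) as `S_LIFT`, from ORDC and FIBR -/
def S_LIFTN : Prop :=
  ∀ {σ τ J J' : Type} [Fintype σ] [Fintype τ] [DecidableEq τ] [Finite J] [Finite J']
    (g : J → MvPolynomial σ ℂ) (g' : J' → MvPolynomial τ ℂ) (f : τ → MvPolynomial σ ℂ)
    (h : MvPolynomial σ ℂ),
    (∀ j, h * g j ∈ Ideal.span (Set.range fun l => bind₁ f (g' l))) →
    (∀ l, h * bind₁ f (g' l) ∈ Ideal.span (Set.range g)) →
    ∀ (κ : τ → σ) (p : σ → ℂ), Function.Injective κ →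
      (Matrix.of fun i j => eval p (pderiv (κ j) (f i))).det ≠ 0 → eval p h ≠ 0 →
      ∀ (y' : J' → ℂ) (M₀ k : ℕ), Nice g' (fun i => eval p (f i)) y' M₀ k →
        ∃ y : J → ℂ, Nice g p y M₀ k

/-- (FOLDN) as `Pool.Agent.D0H67.CX.Pmon.mon`, by a relative version of `SUB.Sing.main`: the jets are
`z = p + … + t ^ a (ρ v + …)`, `N = M₀ a`, `c = ρ ^ M₀`. -/
def S_FOLDN : Prop :=
  ∀ {σ S : Type} [Fintype σ] [Fintype S] [DecidableEq S] {κ : S → Type} [∀ s, Finite (κ s)]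
    (c : (s : S) → κ s → σ → ℂ) (P : Finset (S → ℕ)) (hP : P.Nonempty),
    (∀ s, zeros (c s) ≠ ⊤) → ∀ A : Finset S, 0 < fP P hP A → ExchOn P hP A → ∀ p : σ → ℂ,
    p ∈ (A.inf fun s => zeros (c s) : Submodule ℂ (σ → ℂ)) → (∀ s, s ∉ A → p ∉ zeros (c s)) →
    ∃ y : GI P κ → ℂ, Nice (gensP P c) p y (fP P hP A) 1

/-- (SCALEN) as `S_SCALE2`: `z ↦ a ^ w z`, `c ↦ a ^ d c`, `u ↦ b u` with `b ^ M₀ = a ^ d` -/
def S_SCALEN : Prop :=
  ∀ {σ J : Type} [Fintype σ] [Finite J] (g : J → MvPolynomial σ ℂ) (w : σ → ℕ) (d : ℕ),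
    (∀ j, MvPolynomial.IsWeightedHomogeneous w (g j) d) → ∀ (a : ℂ), a ≠ 0 →
    ∀ (p : σ → ℂ) (y : J → ℂ) (M₀ k : ℕ), Nice g p y M₀ k →
      Nice g (fun i => a ^ w i * p i) y M₀ k

/-- (ORBN) `S_ORB` with the function `c = r ^ d c₀` -/
def S_ORBN : Prop :=
  ∀ {σ : Type} [Fintype σ] (w : σ → ℕ), (∀ k : ℕ, (∀ i, k ∣ w i) → k = 1) →
    ∀ u : Pt ℂ σ, (∀ i, w i ≠ 0 → u i ≠ 0) → ∀ (N a d : ℕ), 0 < a → 0 < d →
    (∀ i, a * w i ≤ N) → ∀ c₀ : AlgebraicClosure ℂ, c₀ ≠ 0 →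
    ∀ {ρ : Type} [Fintype ρ] (Φ : Set (Pt ℂ (ρ ⊕ Unit))), Constr Φ →
    Constr {x : Pt ℂ (ρ ⊕ (σ × Fin (N + 1))) |
      (jk (fun q => x (Sum.inr q)) 0 = fun i => if w i = 0 then u i else 0) ∧
      (∀ i, w i ≠ 0 → ∀ k < a * w i, jk (fun q => x (Sum.inr q)) k i = 0) ∧
      ∃ r : AlgebraicClosure ℂ, r ≠ 0 ∧
        (∀ i, w i ≠ 0 → jk (fun q => x (Sum.inr q)) (a * w i) i = r ^ w i * u i) ∧
        (Sum.elim (fun s => x (Sum.inl s)) fun _ => r ^ d * c₀ : Pt ℂ (ρ ⊕ Unit)) ∈ Φ} ∧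
    ∀ {R : Type} [CommRing R] (M : Meas ℂ R),
      M.χ (ρ ⊕ (σ × Fin (N + 1))) {x : Pt ℂ (ρ ⊕ (σ × Fin (N + 1))) |
        (jk (fun q => x (Sum.inr q)) 0 = fun i => if w i = 0 then u i else 0) ∧
        (∀ i, w i ≠ 0 → ∀ k < a * w i, jk (fun q => x (Sum.inr q)) k i = 0) ∧
        ∃ r : AlgebraicClosure ℂ, r ≠ 0 ∧
          (∀ i, w i ≠ 0 → jk (fun q => x (Sum.inr q)) (a * w i) i = r ^ w i * u i) ∧
          (Sum.elim (fun s => x (Sum.inl s)) fun _ => r ^ d * c₀ : Pt ℂ (ρ ⊕ Unit)) ∈ Φ} =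
      M.χ (ρ ⊕ Unit) (RS d Φ) * M.L ^ (∑ i, (N - a * w i))

/-- (VMONN) as `S_VMON3`: on the orbit of `u`, `g (t ^ (a w) (ρ ^ w u + …)) = t ^ (d a) (ρ ^ d c_u g(v))`;
put `ρ ↦ ρ'` with `ρ' ^ d = ρ ^ d c_u`. -/
def S_VMONN : Prop :=
  ∀ {σ J : Type} [Fintype σ] [Finite J] (g : J → MvPolynomial σ ℂ) (ι : σ → J) (w : σ → ℕ)
    (d : ℕ), (∀ k : ℕ, (∀ i, k ∣ w i) → k = 1) → 0 < d →
    (∀ j, MvPolynomial.IsWeightedHomogeneous w (g j) d) → AlgebraicIndependent ℂ (gY g ι w) →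
    ∀ ε : ℝ, 0 < ε → ∃ p : σ → ℂ, ‖p‖ < ε ∧ ∃ (y : J → ℂ) (k : ℕ), Nice g p y d k

/-- (POWN) as `S_POWM`: the `N`-jets, `N = m N'`, whose `N'`-jets lie in `JetC g p y N' c'`, with
`c = c' ^ m` -/
def S_POWN : Prop :=
  ∀ {σ J : Type} [Fintype σ] [Finite J] (g : J → MvPolynomial σ ℂ) (m : ℕ), 0 < m →
    ∀ (p : σ → ℂ) (y : J → ℂ) (M₀ k : ℕ), Nice g p y M₀ k →
      Nice (powG g m) p (fun q => ∏ i, y (q i)) (m * M₀) k

/-! ### the series of the jets of order `≥ N` -/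

/-- `(c - X F) / (1 - X)` -/
noncomputable def tl {R : Type} [CommRing R] (c : R) (F : PowerSeries R) : PowerSeries R :=
  (PowerSeries.C c - PowerSeries.X * F) * PowerSeries.mk fun _ => 1

/-- the series of the jets of order `≥ N` -/
noncomputable def WF {K : Type} [Field K] {σ J : Type} [Fintype σ] {R : Type} [CommRing R]
    (M : Meas K R) (v : R) (g : J → MvPolynomial σ K) (V : Set (Pt K σ)) : PowerSeries R :=
  tl (M.χ σ V) (ZF M v g V)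

/-- The `N`-jets `z`, `z_0 ∈ V`, on which the ideal has an order `≥ N`. -/
def JetW {K : Type} [Field K] {σ J : Type} (g : J → MvPolynomial σ K) (V : Set (Pt K σ)) (N : ℕ) :
    Set (Pt K (σ × Fin (N + 1))) :=
  {z | (fun i => z (i, 0)) ∈ V ∧ ∀ j, ∀ k < N, PowerSeries.coeff k (aeval (ar z) (g j)) = 0}

/-- (WREL) induction on `N`: `WF_N = ZF_N + WF_{N+1}`, and the condition `ord ≥ N + 1` does not involve the
coefficient of `t ^ (N + 1)` of the `N + 1`-jet. -/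
def S_WREL : Prop :=
  ∀ {K : Type} [Field K] {σ J : Type} [Fintype σ] [Finite J] (g : J → MvPolynomial σ K)
    {R : Type} [CommRing R] (M : Meas K R) (v : R), M.L * v = 1 → ∀ V : Set (Pt K σ), Constr V →
    ∀ N : ℕ, Constr (JetW g V N) ∧
      PowerSeries.coeff N (WF M v g V) =
        M.χ (σ × Fin (N + 1)) (JetW g V N) * v ^ (Fintype.card σ * N)

/-- (WSUM) `ord (I + J) = min`: a product of the two sets of jets -/
def S_WSUM : Prop :=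
  ∀ {K : Type} [Field K] {σ τ J J' : Type} [Fintype σ] [Fintype τ] [Finite J] [Finite J']
    (g : J → MvPolynomial σ K) (g' : J' → MvPolynomial τ K)
    {R : Type} [CommRing R] (M : Meas K R) (v : R), M.L * v = 1 →
    WF M v (sumG g g') {0} = PowerSeries.mk fun N =>
      PowerSeries.coeff N (WF M v g {0}) * PowerSeries.coeff N (WF M v g' {0})

/-- the pairs `(a l / b + a' l / b', l)`, `l = lcm (b, b')` -/
def addD (D D' : Set (ℤ × ℤ)) : Set (ℤ × ℤ) :=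
  {q | ∃ p ∈ D, ∃ p' ∈ D', q = (p.1 * ((Int.lcm p.2 p'.2 : ℤ) / p.2) +
    p'.1 * ((Int.lcm p.2 p'.2 : ℤ) / p'.2), (Int.lcm p.2 p'.2 : ℤ))}

/-- (HAD) Hadamard products. `F ∈ ratU u D` iff some product of factors `1 - u ^ a T ^ b`,
`(a, b) ∈ D`, times `F` is a polynomial. For the sequences `x`, `y` of the coefficients, shifted far enough,
`∏ (S ^ (b i) - u ^ (a i)) x = 0`, `∏ (S ^ (b' j) - u ^ (a' j)) y = 0` (`S` the shift). Induction on the number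
of factors: `S ^ l (x y) - α β x y = (S ^ l x - α x) S ^ l y + α x (S ^ l y - β y)` with
`l = lcm (b, b')`, `α = u ^ (a l / b)`, `β = u ^ (a' l / b')`, and `S ^ l - α` is a multiple of
`S ^ b - u ^ a`. -/
def S_HAD : Prop :=
  ∀ {R : Type} [CommRing R] (u : Rˣ) (D D' : Set (ℤ × ℤ)), (∀ q ∈ D, 0 < q.2) →
    (∀ q ∈ D', 0 < q.2) → ∀ F ∈ ratU u D, ∀ G ∈ ratU u D',
    (PowerSeries.mk fun N => PowerSeries.coeff N F * PowerSeries.coeff N G) ∈ ratU u (addD D D')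

/-- (REC3T) `S_REC3` with the sum of the `q k` (all the jets of `{0}` have the volume `1`; those which are
divisible by `t ^ w` have the volume `v ^ (∑ w) 𝕃 ^ #{w ≠ 0}`, and the others have order `< d`) -/
def S_REC3T : Prop :=
  ∀ {K : Type} [Field K] {σ J : Type} [Fintype σ] [Finite J] (g : J → MvPolynomial σ K)
    (w : σ → ℕ) (d : ℕ), 0 < d →
    (∀ j, MvPolynomial.IsWeightedHomogeneous w (g j) d) →
    (∀ u : Pt K σ, u ≠ 0 → (∀ i, w i = 0 → u i = 0) → (∀ j, aeval u (g j) = 0) →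
      ∀ k : ℕ, (∀ i, u i ≠ 0 → k ∣ w i) → k = 1) →
    ∀ {R : Type} [CommRing R] (M : Meas K R) (v : R), M.L * v = 1 → ∃ q : ℕ → R,
    (∑ k ∈ Finset.range d, q k + v ^ (∑ i, w i) * M.χ σ {z | ∀ i, w i = 0 → z i = 0} = 1) ∧
    ZF M v g {0} = ∑ k ∈ Finset.range d, PowerSeries.C (q k) * PowerSeries.X ^ k +
      PowerSeries.C (v ^ (∑ i, w i)) * PowerSeries.X ^ d *
        ZF M v g {z | ∀ i, w i = 0 → z i = 0}

/-- (REC3W) from REC3T: the same shape for `WF` (`tl` is additive, and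
`tl (C c) (X ^ d F c') = …`; `tl (∑ q) (∑ q_k X ^ k) = ∑ q_k (1 + … + X ^ k)`) -/
def S_REC3W : Prop :=
  ∀ {K : Type} [Field K] {σ J : Type} [Fintype σ] [Finite J] (g : J → MvPolynomial σ K)
    (w : σ → ℕ) (d : ℕ), 0 < d →
    (∀ j, MvPolynomial.IsWeightedHomogeneous w (g j) d) →
    (∀ u : Pt K σ, u ≠ 0 → (∀ i, w i = 0 → u i = 0) → (∀ j, aeval u (g j) = 0) →
      ∀ k : ℕ, (∀ i, u i ≠ 0 → k ∣ w i) → k = 1) →
    ∀ {R : Type} [CommRing R] (M : Meas K R) (v : R), M.L * v = 1 → ∃ q : ℕ → R,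
    WF M v g {0} = ∑ k ∈ Finset.range d, PowerSeries.C (q k) * PowerSeries.X ^ k +
      PowerSeries.C (v ^ (∑ i, w i)) * PowerSeries.X ^ d *
        WF M v g {z | ∀ i, w i = 0 → z i = 0}

/-- (ADD2W) as `S_ADD2`, for `WF` (from `S_ADD2`; `M.add`) -/
def S_ADD2W : Prop :=
  ∀ {K : Type} [Field K] {σ J : Type} [Fintype σ] [Finite J] (g : J → MvPolynomial σ K)
    {R : Type} [CommRing R] (M : Meas K R) (v : R), M.L * v = 1 →
    (∀ V W : Set (Pt K σ), Constr V → Constr W → Disjoint V W →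
      WF M v g (V ∪ W) = WF M v g V + WF M v g W) ∧
    ∀ V : Set (Pt K σ), Constr V → (∀ x ∈ V, ∃ j, aeval x (g j) ≠ 0) →
      WF M v g V = PowerSeries.C (M.χ σ V)

/-- (RAT2T) `S_RAT2` for `tl 1`: the proof of `Pool.Agent.D0H67.CX.Rat2.main` with
`tl 1 (zf A) = v ^ n ∑_B χ_B ((1 + … + X ^ (f A - 1)) + X ^ (f A) tl 1 (zf B))`, as
`v ^ n ∑_B χ_B = 1`. -/
def S_RAT2T : Prop :=
  ∀ {K : Type} [Field K] [IsAlgClosed K] {σ S : Type} [Fintype σ] [DecidableEq S]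
    (L : S → Submodule (AlgebraicClosure K) (Pt K σ)) (f : Finset S → ℕ),
    f ∅ = 0 → (∀ A B, A ⊆ B → f A ≤ f B) →
    ∀ {R : Type} [CommRing R] (M : Meas K R) (u : Rˣ), M.L = (u : R) →
    ∀ A : Finset S, (∀ s, A.inf L ≤ L s → s ∈ A) →
      tl 1 (zf M ((u⁻¹ : Rˣ) : R) L f A) ∈ ratU u {q : ℤ × ℤ | ∃ B ⊆ A,
        (∀ s, B.inf L ≤ L s → s ∈ B) ∧ 0 < f B ∧
        q = (-((Fintype.card σ - Module.finrank (AlgebraicClosure K) (B.inf L : Submodule _ _)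
          : ℕ) : ℤ), (f B : ℤ))}

/-- (POWT) powers: `tl 1 (F(X ^ m)) = (tl 1 F)(X ^ m) (1 + … + X ^ (m - 1)) - (X + … + X ^ (m - 1)) F(X ^ m)`
and `S_POWR`; `F ∈ ratU u D` from `tl 1 F ∈ ratU u D` (DROP). -/
def S_POWT : Prop :=
  ∀ {R : Type} [CommRing R] (u : Rˣ) (D : Set (ℤ × ℤ)), (∀ q ∈ D, 0 < q.2) → ∀ m : ℕ, 0 < m →
    ∀ F : PowerSeries R, tl 1 F ∈ ratU u D →
      tl 1 (expandS m F) ∈ ratU u {q : ℤ × ℤ | ∃ p ∈ D, q = (p.1, (m : ℤ) * p.2)}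

/-- (DROP) `X F = c - (1 - X) tl c F`, and the factor `X` can be removed (compare `drop_mem` in the
starting files) -/
def S_DROP : Prop :=
  ∀ {R : Type} [CommRing R] (u : Rˣ) (D : Set (ℤ × ℤ)), (∀ q ∈ D, 0 < q.2) →
    ∀ (c : R) (F : PowerSeries R), tl c F ∈ ratU u D → F ∈ ratU u D

/-- (PRODT) products: `tl 1 (F G) = (tl 1 G - G) + tl 1 F G` -/
def S_PRODT : Prop :=
  ∀ {R : Type} [CommRing R] (u : Rˣ) (D : Set (ℤ × ℤ)), (∀ q ∈ D, 0 < q.2) →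
    ∀ F G : PowerSeries R, tl 1 F ∈ ratU u D → tl 1 G ∈ ratU u D → tl 1 (F * G) ∈ ratU u D

end Pool.Agent.D0H67.TS
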