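import Pool.Agent.D0H67.TS.Stm
import Pool.Agent.D0H67.CX.Good3

/-! # The tail series over the strata -/

set_option autoImplicit false
set_option linter.unusedSectionVars false
set_option linter.unusedVariables false

namespace Pool.Agent.D0H67.TS

open MvPolynomial Pool.Agent.W428.MOT Pool.Agent.TH192.MT Pool.Agent.TH192.DT
  Pool.Agent.D0H67.SUB Pool.Agent.D0H67.PM Pool.Agent.D0H67.CX Pool.Agent.D0H67.CX.Qh
  Pool.Agent.D0H67.CX.Loc Pool.Agent.D0H67.CX.Fam Pool.Agent.D0H67.CX.Zeta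

theorem tl_C {R : Type} [CommRing R] (c : R) (F : PowerSeries R) :
    tl c (PowerSeries.C c * F) = PowerSeries.C c * tl 1 F := by
  unfold tl
  rw [map_one]
  ring

namespace W

section union

variable {R : Type} [CommRing R] {M : Meas ℂ R} {v : R} {σ J : Type} [Fintype σ]
  {g : J → MvPolynomial σ ℂ}

/-- additivity -/
def Add (M : Meas ℂ R) (v : R) (g : J → MvPolynomial σ ℂ) : Prop :=
  ∀ V W : Set (Pt ℂ σ), Constr V → Constr W → Disjoint V W →
      WF M v g (V ∪ W) = WF M v g V + WF M v g W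

theorem zf_empty (h : Add M v g) : WF M v g ∅ = 0 := by
  have := h ∅ ∅ Constr.empty Constr.empty (Set.disjoint_empty _)
  rw [Set.union_empty] at this
  exact left_eq_add.1 this

theorem mem_biUnion (h : Add M v g) (X : Subalgebra R (PowerSeries R)) {α : Type}
    [DecidableEq α] (s : Finset α) (V : α → Set (Pt ℂ σ)) (hV : ∀ a ∈ s, Constr (V a))
    (hd : ∀ a ∈ s, ∀ b ∈ s, a ≠ b → Disjoint (V a) (V b)) (hX : ∀ a ∈ s, WF M v g (V a) ∈ X) :
    WF M v g (⋃ a ∈ s, V a) ∈ X := by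
  induction s using Finset.induction_on with
  | empty =>
    simp only [Finset.notMem_empty, Set.iUnion_of_empty, Set.iUnion_empty]
    rw [zf_empty h]
    exact X.zero_mem
  | insert a s ha ih =>
    rw [Finset.set_biUnion_insert, h]
    · refine X.add_mem (hX a (Finset.mem_insert_self a s)) (ih ?_ ?_ ?_)
      · exact fun b hb => hV b (Finset.mem_insert_of_mem hb)
      · exact fun b hb b' hb' => hd b (Finset.mem_insert_of_mem hb) b' (Finset.mem_insert_of_mem hb')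
      · exact fun b hb => hX b (Finset.mem_insert_of_mem hb)
    · exact hV a (Finset.mem_insert_self a s)
    · have h1 := Constr.bexFinset s (p := fun b z => z ∈ V b)
        fun b hb => hV b (Finset.mem_insert_of_mem hb)
      have h2 : (⋃ b ∈ s, V b) = {z | ∃ b ∈ s, z ∈ V b} := by
        ext z
        simp
      rw [h2]
      exact h1
    · rw [Set.disjoint_iUnion₂_right]
      intro b hb
      exact hd a (Finset.mem_insert_self a s) b (Finset.mem_insert_of_mem hb)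
        fun h3 => ha (h3 ▸ hb)

end union

variable {σ J : Type} [Fintype σ] [Finite J] (g : J → MvPolynomial σ ℂ)

/-- a finite cover -/
theorem cover {M : Meas ℂ (MK ℂ)} (hadd : W.Add M (((Lu ℂ)⁻¹ : (MK ℂ)ˣ) : MK ℂ) g)
    (D : Set (ℤ × ℤ)) (W : Set (Pt ℂ σ)) {ι : Type} [DecidableEq ι] (U : ι → Set (Pt ℂ σ))
    (T : Finset ι) (hU : ∀ i ∈ T, Constr (U i))
    (h : ∀ i ∈ T, ∀ B ⊆ U i, Constr B → B ⊆ W →
      WF M (((Lu ℂ)⁻¹ : (MK ℂ)ˣ) : MK ℂ) g B ∈ ratU (Lu ℂ) D) :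
    ∀ W' : Set (Pt ℂ σ), Constr W' → W' ⊆ W → (∀ x ∈ W', ∃ i ∈ T, x ∈ U i) →
      WF M (((Lu ℂ)⁻¹ : (MK ℂ)ˣ) : MK ℂ) g W' ∈ ratU (Lu ℂ) D := by
  induction T using Finset.induction_on with
  | empty =>
    intro W' _ _ h5
    have h6 : W' = ∅ := by
      ext x
      simp only [Set.mem_empty_iff_false, iff_false]
      intro hx
      obtain ⟨i, hi, -⟩ := h5 x hx
      exact absurd hi (Finset.notMem_empty i)
    rw [h6, zf_empty hadd]
    exact Subalgebra.zero_mem _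
  | insert a T ha ih =>
    intro W' hW' hWW h5
    have hUa : Constr (U a) := hU a (Finset.mem_insert_self a T)
    have hc1 : Constr {x : Pt ℂ σ | x ∈ W' ∧ x ∈ U a} := Constr.and hW' hUa
    have hc2 : Constr {x : Pt ℂ σ | x ∈ W' ∧ ¬ x ∈ U a} := Constr.and hW' (Constr.not hUa)
    have h6 : W' = {x | x ∈ W' ∧ x ∈ U a} ∪ {x | x ∈ W' ∧ ¬ x ∈ U a} := by
      ext x
      simp only [Set.mem_ofPred_eq, Set.mem_union]
      tauto
    rw [h6, hadd _ _ hc1 hc2]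
    · refine Subalgebra.add_mem _ ?_ ?_
      · exact h a (Finset.mem_insert_self a T) _ (fun x hx => hx.2) hc1 fun x hx => hWW hx.1
      · refine ih (fun i hi => hU i (Finset.mem_insert_of_mem hi))
          (fun i hi => h i (Finset.mem_insert_of_mem hi)) _ hc2 (fun x hx => hWW hx.1) ?_
        rintro x ⟨hx, hxa⟩
        obtain ⟨i, hi, hxi⟩ := h5 x hx
        rcases Finset.mem_insert.1 hi with rfl | hi
        · exact absurd hxi hxa
        · exact ⟨i, hi, hxi⟩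
    · rw [Set.disjoint_left]
      rintro x ⟨-, h7⟩ ⟨-, h8⟩
      exact h8 h7

/-- a piece of one chart -/
theorem piece (hORDT : S_ORDT) (hZST : S_ZST) (hRAT : S_RAT2T) (M : Meas ℂ (MK ℂ))
    (hL : M.L = ((Lu ℂ : (MK ℂ)ˣ) : MK ℂ))
    (hadd : W.Add M (((Lu ℂ)⁻¹ : (MK ℂ)ˣ) : MK ℂ) g)
    {τ S : Type} [Fintype τ] [Fintype S] {κ : S → Type} [hκ : ∀ s, Finite (κ s)]
    (c : (s : S) → κ s → τ → ℂ) (P : Finset (S → ℕ)) (hP : P.Nonempty)
    (f : τ → MvPolynomial σ ℂ) (h : MvPolynomial σ ℂ) (u : σ → ℂ)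
    (hch : IsChart g c P hP f h u) (Q : (σ → ℂ) → Prop) (D : Set (ℤ × ℤ))
    (hD : PairsQ g Q c P hP f h D)
    [DecidableEq τ] (κ0 : τ → σ) (hκ0 : Function.Injective κ0)
    (B : Set (Pt ℂ σ)) (hB : Constr B)
    (hBQ : ∀ w : σ → ℂ, (fun i => algebraMap ℂ (AlgebraicClosure ℂ) (w i)) ∈ B → Q w)
    (hBh : ∀ x ∈ B, aeval x h ≠ 0) (hBj : ∀ x ∈ B, (jac f κ0 x).det ≠ 0) :
    WF M (((Lu ℂ)⁻¹ : (MK ℂ)ˣ) : MK ℂ) g B ∈ ratU (Lu ℂ) D := by
  classical
  obtain ⟨hc, hG, hX, hli, hhu, hI1, hI2⟩ := hch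
  obtain ⟨Φ, h1, h2, h3⟩ := Pool.Agent.D0H9.SUB.trans (K := ℂ) (σ := τ)
  have hLw : M.L * (((Lu ℂ)⁻¹ : (MK ℂ)ˣ) : MK ℂ) = 1 := by rw [hL, Units.mul_inv]
  set L : S → Submodule (AlgebraicClosure ℂ) (Pt ℂ τ) := fun s => zerosF (c s) with hLdef
  have hLc : ∀ s, Constr (L s : Set (Pt ℂ τ)) := fun s => Base.constr_sub (L s)
  have h4 : ∀ A : Finset S, A.inf L = Φ (Gs c A) := by
    intro A
    unfold Gs
    rw [map_finset_inf Φ A]
    exact Finset.inf_congr rfl fun s _ => (h3 (c s)).symm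
  -- the strata
  set V : Finset S → Set (Pt ℂ σ) := fun A => {x | x ∈ B ∧ vf f x ∈ VC L Finset.univ A} with hV
  have hVc : ∀ A, Constr (V A) := fun A => Constr.and hB
    ((Eng.constr_VC L hLc Finset.univ A).preimage (fun x => vf f x) fun i => IsPF.poly (f i))
  have hBV : B = ⋃ A ∈ (Finset.univ : Finset S).powerset, V A := by
    ext x
    simp only [Set.mem_iUnion, exists_prop, Finset.mem_powerset]
    constructor
    · intro hx
      refine ⟨Finset.univ.filter fun s => vf f x ∈ L s, Finset.subset_univ _, hx, ?_, ?_⟩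
      · exact fun s hs => (Finset.mem_filter.1 hs).2
      · intro s hs h5
        rw [Finset.mem_sdiff, Finset.mem_filter] at hs
        exact hs.2 ⟨hs.1, h5⟩
    · rintro ⟨A, -, hx, -⟩
      exact hx
  rw [hBV]
  refine mem_biUnion hadd _ _ _ (fun A _ => hVc A) ?_ ?_
  · intro A hA A' hA' hne
    rw [Set.disjoint_left]
    rintro x ⟨-, h5⟩ ⟨-, h6⟩
    exact hne (Eng.VC_disj L (Finset.mem_powerset.1 hA) (Finset.mem_powerset.1 hA') h5 h6)
  · intro A _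
    by_cases hne : (V A).Nonempty
    · obtain ⟨x, hxB, hxA⟩ := hne
      obtain ⟨w, hw⟩ := exists_pt x
      have hvf : vf f x = fun i => algebraMap ℂ (AlgebraicClosure ℂ) (eval w (f i)) := by
        funext i
        unfold vf
        rw [← hw, aevalA]
      have hmemL : ∀ s, (vf f x ∈ L s ↔ (fun i => eval w (f i)) ∈ zeros (c s)) := by
        intro s
        rw [hvf, hLdef, h2 (zeros (c s)), h3 (c s)]
      -- the stratum is closed
      have hcl : ∀ s, A.inf L ≤ L s → s ∈ A := by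
        intro s hs
        by_contra h5
        refine hxA.2 s (Finset.mem_sdiff.2 ⟨Finset.mem_univ s, h5⟩) (hs ?_)
        rw [Submodule.mem_finsetInf]
        exact hxA.1
      have hZ : WF M (((Lu ℂ)⁻¹ : (MK ℂ)ˣ) : MK ℂ) g (V A) =
          PowerSeries.C (M.χ σ (V A)) *
            tl 1 (zf M (((Lu ℂ)⁻¹ : (MK ℂ)ˣ) : MK ℂ) L (fP P hP) A) := by
        rw [← tl_C]
        unfold WF
        congr 1
        rw [← hZST f κ0 hκ0 L (fP P hP) A (V A) (hVc A) (fun x hx => hBj x hx.1)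
          (fun x hx => hx.2) M _ hLw]
        unfold ZF
        congr 1
        funext N
        congr 2
        ext z
        rw [← Ordv.ord1 c P hP hG Set.univ N]
        constructor
        · intro hz
          have h5 : jk z 0 ∈ V A := by
            rw [Lev.jk_zero]
            exact hz.1
          exact (((hORDT g (gensP P c) f h hI1 hI2).1 N z (V A) (hBh _ h5.1)).1 hz)
        · rintro ⟨h5, h6⟩
          exact (((hORDT g (gensP P c) f h hI1 hI2).1 N z (V A) (hBh _ h5.1)).2 ⟨h5, h6⟩)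
      rw [hZ]
      refine Subalgebra.mul_mem _ (rat_C (Lu ℂ) _) ?_
      refine Rat2.ratU_mono (Lu ℂ) ?_ (hRAT L (fP P hP) (PM.Fin.fP_empty P hP)
        (PM.Fin.fP_mono P hP) M (Lu ℂ) hL A hcl)
      rintro q ⟨A', hA', hA'cl, hA'pos, hq⟩
      have hwQ : Q w := hBQ w (by rw [hw]; exact hxB)
      have hq' : q = (-((Fintype.card τ - Module.finrank ℂ (Gs c A') : ℕ) : ℤ),
          (fP P hP A' : ℤ)) := by rw [hq, h4, h1]
      rw [hq']
      refine hD w hwQ ⟨hc, hG, hX, ?_, ?_, hI1, hI2⟩ A' ?_ ?_ hA'pos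
      · have h5 := hBj x hxB
        rw [← hw, jac_det] at h5
        exact indep_of_det _ κ0 fun h6 => h5 (by rw [h6, map_zero])
      · intro h5
        apply hBh x hxB
        rw [← hw, aevalA, h5, map_zero]
      · intro s hs
        apply hA'cl s
        rw [h4]
        change Φ _ ≤ zerosF (c s)
        rw [← h3 (c s), OrderIso.le_iff_le]
        exact hs
      · rw [mem_Gs]
        intro s hs
        rw [← hmemL]
        exact hxA.1 s (hA' hs)
    · rw [Set.not_nonempty_iff_eq_empty] at hne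
      rw [hne, zf_empty hadd]
      exact Subalgebra.zero_mem _


/-- The sets `B` near the point `u` -/
def LR (M : Meas ℂ (MK ℂ)) (D : Set (ℤ × ℤ)) (W : Set (Pt ℂ σ)) (u : σ → ℂ) : Prop :=
  ∃ H : MvPolynomial σ ℂ, eval u H ≠ 0 ∧ ∀ B ⊆ W, Constr B → (∀ x ∈ B, aeval x H ≠ 0) →
    WF M (((Lu ℂ)⁻¹ : (MK ℂ)ˣ) : MK ℂ) g B ∈ ratU (Lu ℂ) D

/-- a fold chart -/
theorem LR_of_chart (hORDT : S_ORDT) (hZST : S_ZST) (hRAT : S_RAT2T) (M : Meas ℂ (MK ℂ))
    (hL : M.L = ((Lu ℂ : (MK ℂ)ˣ) : MK ℂ))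
    (hadd : W.Add M (((Lu ℂ)⁻¹ : (MK ℂ)ˣ) : MK ℂ) g) (W : Set (Pt ℂ σ)) (Q : (σ → ℂ) → Prop)
    (hWQ : ∀ w : σ → ℂ, (fun i => algebraMap ℂ (AlgebraicClosure ℂ) (w i)) ∈ W → Q w)
    {τ S : Type} [Fintype τ] [Fintype S] {κ : S → Type} [hκ : ∀ s, Finite (κ s)]
    (c : (s : S) → κ s → τ → ℂ) (P : Finset (S → ℕ)) (hP : P.Nonempty)
    (f : τ → MvPolynomial σ ℂ) (h : MvPolynomial σ ℂ) (u : σ → ℂ)
    (hch : IsChart g c P hP f h u) (D : Set (ℤ × ℤ)) (hD : PairsQ g Q c P hP f h D) :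
    LR g M D W u := by
  classical
  obtain ⟨κ0, hκ0, hdet⟩ := Small.minor _ hch.2.2.2.1
  refine ⟨h * (Matrix.of fun i j => pderiv (κ0 j) (f i) :
    Matrix τ τ (MvPolynomial σ ℂ)).det, ?_, fun B hBW hB hBH => ?_⟩
  · rw [map_mul]
    refine mul_ne_zero hch.2.2.2.2.1 ?_
    rw [RingHom.map_det]
    exact hdet
  · have h5 : ∀ x : Pt ℂ σ, aeval x (Matrix.of fun i j => pderiv (κ0 j) (f i) :
        Matrix τ τ (MvPolynomial σ ℂ)).det = (jac f κ0 x).det := by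
      intro x
      rw [AlgHom.map_det]
      rfl
    refine piece g hORDT hZST hRAT M hL hadd c P hP f h u hch Q D hD κ0 hκ0 B hB
      (fun w hw => hWQ w (hBW hw))
      (fun x hx h6 => hBH x hx ?_) (fun x hx h6 => hBH x hx ?_)
    · rw [map_mul, h6, zero_mul]
    · rw [map_mul, h5, h6, mul_zero]

theorem core (hADD : S_ADD2W) (hREC : S_REC3W) (w : σ → ℕ) (d : ℕ) (hd : 0 < d)
    (hg : ∀ j, IsWeightedHomogeneous w (g j) d)
    (hfree : ∀ u : σ → ℂ, QQ g w u → ∀ k : ℕ, (∀ i, u i ≠ 0 → k ∣ w i) → k = 1)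
    (D : Set (ℤ × ℤ)) (hD0 : (-((∑ i, w i : ℕ) : ℤ), (d : ℤ)) ∈ D) (M : Meas ℂ (MK ℂ))
    (hL : M.L = ((Lu ℂ : (MK ℂ)ˣ) : MK ℂ)) {Ω : Type} [Finite Ω] (C : Ω → Set (Pt ℂ σ))
    (hC : ∀ ω, Constr (C ω))
    (hCr : ∀ ω, ∀ B ⊆ C ω, Constr B → B ⊆ WW g w →
      WF M (((Lu ℂ)⁻¹ : (MK ℂ)ˣ) : MK ℂ) g B ∈ ratU (Lu ℂ) D)
    (hcov : ∀ u : σ → ℂ, QQ g w u →
      (∃ ω, (fun i => algebraMap ℂ (AlgebraicClosure ℂ) (u i)) ∈ C ω) ∨ W.LR g M D (WW g w) u) :
    WF M (((Lu ℂ)⁻¹ : (MK ℂ)ˣ) : MK ℂ) g {0} ∈ ratU (Lu ℂ) D := by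
  classical
  cases nonempty_fintype Ω
  set v : MK ℂ := (((Lu ℂ)⁻¹ : (MK ℂ)ˣ) : MK ℂ) with hvdef
  have hLw : M.L * v = 1 := by rw [hL, Units.mul_inv]
  obtain ⟨a, hRa⟩ := hREC g w d hd hg (by
    intro x hx0 hxw hxg k hk
    obtain ⟨z, hz⟩ := exists_pt x
    have hzQ : QQ g w z := (mem_WW g w z).1 (by rw [hz]; exact ⟨⟨hx0, hxw⟩, hxg⟩)
    refine hfree z hzQ k fun i hi => hk i ?_
    rw [← hz]
    intro h5
    exact hi (injA ((show algebraMap ℂ (AlgebraicClosure ℂ) (z i) = 0 from h5).trans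
      (map_zero _).symm))) M v hLw
  obtain ⟨hRb, hRc⟩ := hADD g M v hLw
  have hadd : W.Add M v g := hRb
  have hWc : Constr (WW g w) := constr_WW g w
  have hCc : Constr {x : Pt ℂ σ | ∃ ω ∈ (Finset.univ : Finset Ω), x ∈ C ω} :=
    Constr.bexFinset Finset.univ fun ω _ => hC ω
  -- the points outside the centers
  set W2 : Set (Pt ℂ σ) := {x | x ∈ WW g w ∧ ¬ ∃ ω ∈ (Finset.univ : Finset Ω), x ∈ C ω} with hW2
  have hdata : ∀ u : σ → ℂ, ∃ H : MvPolynomial σ ℂ,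
      (fun i => algebraMap ℂ (AlgebraicClosure ℂ) (u i)) ∈ W2 →
      eval u H ≠ 0 ∧ ∀ B ⊆ WW g w, Constr B → (∀ x ∈ B, aeval x H ≠ 0) →
        WF M v g B ∈ ratU (Lu ℂ) D := by
    intro u
    by_cases hu : (fun i => algebraMap ℂ (AlgebraicClosure ℂ) (u i)) ∈ W2
    · rcases hcov u ((mem_WW g w u).1 hu.1) with ⟨ω, hω⟩ | ⟨H, hH⟩
      · exact absurd ⟨ω, Finset.mem_univ ω, hω⟩ hu.2
      · exact ⟨H, fun _ => hH⟩
    · exact ⟨0, fun h => absurd h hu⟩
  choose H hH using hdata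
  obtain ⟨T, hTZ, hT⟩ := Small.cov
    {u : σ → ℂ | (fun i => algebraMap ℂ (AlgebraicClosure ℂ) (u i)) ∈ W2} H
    fun u hu => (hH u hu).1
  have hZW2 : WF M v g W2 ∈ ratU (Lu ℂ) D := by
    refine W.cover g hadd D (WW g w) (fun u : σ → ℂ => {x : Pt ℂ σ | aeval x (H u) ≠ 0}) T
      (fun u _ => Constr.ne (IsPF.poly (H u)) IsPF.zero) (fun u hu B hB hBc hBW => ?_) W2
      (Constr.and hWc (Constr.not hCc)) (fun x hx => hx.1) ?_
    · exact (hH u (hTZ hu)).2 B hBW hBc hB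
    · intro x hx
      obtain ⟨z, hz⟩ := exists_pt x
      obtain ⟨u, hu, hu'⟩ := hT z (by
        change (fun i => algebraMap ℂ (AlgebraicClosure ℂ) (z i)) ∈ W2
        rw [hz]
        exact hx)
      refine ⟨u, hu, fun h6 => hu' ?_⟩
      rw [← hz, aevalA] at h6
      exact injA (by rw [h6, map_zero])
  have hZW1 : WF M v g {x | x ∈ WW g w ∧ ∃ ω ∈ (Finset.univ : Finset Ω), x ∈ C ω} ∈
      ratU (Lu ℂ) D := by
    refine W.cover g hadd D (WW g w) C Finset.univ (fun ω _ => hC ω)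
      (fun ω _ B hB hBc hBW => ?_) _ (Constr.and hWc hCc) (fun x hx => hx.1) (fun x hx => hx.2)
    exact hCr ω B hB hBc hBW
  have hZW : WF M v g (WW g w) ∈ ratU (Lu ℂ) D := by
    have h5 : WW g w = {x | x ∈ WW g w ∧ ∃ ω ∈ (Finset.univ : Finset Ω), x ∈ C ω} ∪ W2 := by
      ext x
      simp only [hW2, Set.mem_ofPred_eq, Set.mem_union]
      generalize (∃ ω ∈ (Finset.univ : Finset Ω), x ∈ C ω) = p1
      generalize (x ∈ WW g w) = p2
      tauto
    have hc1 : Constr {x | x ∈ WW g w ∧ ∃ ω ∈ (Finset.univ : Finset Ω), x ∈ C ω} :=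
      Constr.and hWc hCc
    have hc2 : Constr W2 := Constr.and hWc (Constr.not hCc)
    rw [h5, hadd _ _ hc1 hc2]
    · exact Subalgebra.add_mem _ hZW1 hZW2
    · rw [Set.disjoint_left]
      rintro x ⟨-, h7⟩ ⟨-, h8⟩
      exact h8 h7
  -- all points `(x, 0)`, `x ≠ 0`
  have hne0 : Constr {x : Pt ℂ σ | x ≠ 0} := by
    have := (Shift.constr_z (K := ℂ) (σ := σ)).compl
    exact this
  have hne1 : Constr {x : Pt ℂ σ | x ≠ 0 ∧ ∀ i, w i = 0 → x i = 0} :=
    Constr.and hne0 (constr_par w)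
  have hne : WF M v g {x | x ≠ 0 ∧ ∀ i, w i = 0 → x i = 0} ∈ ratU (Lu ℂ) D := by
    have h5 : {x : Pt ℂ σ | x ≠ 0 ∧ ∀ i, w i = 0 → x i = 0} =
        WW g w ∪ {x | (x ≠ 0 ∧ ∀ i, w i = 0 → x i = 0) ∧ ¬ ∀ j, aeval x (g j) = 0} := by
      ext x
      simp only [WW, Set.mem_ofPred_eq, Set.mem_union]
      generalize (x ≠ 0 ∧ ∀ i, w i = 0 → x i = 0) = p1
      generalize (∀ j, aeval x (g j) = 0) = p2
      tauto
    have hc2 : Constr {x : Pt ℂ σ | (x ≠ 0 ∧ ∀ i, w i = 0 → x i = 0) ∧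
        ¬ ∀ j, aeval x (g j) = 0} :=
      Constr.and hne1 (Constr.not (Constr.all fun j => Constr.eqz (IsPF.poly (g j))))
    rw [h5, hadd _ _ hWc hc2]
    · refine Subalgebra.add_mem _ hZW ?_
      rw [hRc _ hc2 fun x hx => by
        have := hx.2
        push Not at this
        exact this]
      exact rat_C _ _
    · rw [Set.disjoint_left]
      rintro x ⟨-, h7⟩ ⟨-, h8⟩
      exact h8 h7
  have h5 : {x : Pt ℂ σ | ∀ i, w i = 0 → x i = 0} =
      {0} ∪ {x | x ≠ 0 ∧ ∀ i, w i = 0 → x i = 0} := by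
    ext x
    simp only [Set.mem_union, Set.mem_singleton_iff, Set.mem_ofPred_eq]
    constructor
    · intro h
      by_cases hx : x = 0
      · exact Or.inl hx
      · exact Or.inr ⟨hx, h⟩
    · rintro (rfl | h)
      · exact fun i _ => rfl
      · exact h.2
  have hdj : Disjoint ({0} : Set (Pt ℂ σ)) {x | x ≠ 0 ∧ ∀ i, w i = 0 → x i = 0} := by
    rw [Set.disjoint_left]
    intro x hx hx'
    exact hx'.1 hx
  rw [h5, hadd _ _ Shift.constr_z hne1 hdj] at hRa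
  refine geo_solve (Lu ℂ) hd (D := D) (ν := ∑ i, w i) hD0 _
    (∑ k ∈ Finset.range d, PowerSeries.C (a k) * PowerSeries.X ^ k +
      PowerSeries.C (v ^ (∑ i, w i)) * PowerSeries.X ^ d *
      WF M v g {x | x ≠ 0 ∧ ∀ i, w i = 0 → x i = 0}) ?_ ?_
  · refine Subalgebra.add_mem _ (Subalgebra.sum_mem _ fun k _ =>
      Subalgebra.mul_mem _ (rat_C _ _) (Subalgebra.pow_mem _ (rat_X _) _)) ?_
    exact Subalgebra.mul_mem _ (Subalgebra.mul_mem _ (rat_C _ _)
      (Subalgebra.pow_mem _ (rat_X _) _)) hne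
  · conv_lhs => rw [hRa]
    rw [hvdef]
    ring


end W

end Pool.Agent.D0H67.TS
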